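import Pool.Agent.V8H23.Tow.Core

/-!
# The two level map and random delays
-/

set_option autoImplicit false
set_option linter.unusedSectionVars false

open MeasureTheory Filter Topology Set Finset
open scoped ENNReal ComplexConjugate

namespace Pool.Agent.V8H23.Tow

open Pool.Agent.V8H53.Ind
open Pool.Agent.R205.PC (Lk Fresh)

section core
variable {Y : Type*} [MeasurableSpace Y]

/-- labels on `D` with rare bad blocks; the set `E` has the label `0`, the other points the label `1` -/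
theorem labels_few [StandardBorelSpace Y] (μ : Measure Y) [IsProbabilityMeasure μ] (S : Y ≃ᵐ Y)
    (hS : MeasurePreserving S μ μ)
    (hap : ∀ᵐ y ∂μ, ∀ n : ℕ, 0 < n → S^[n] y ≠ y) {D E : Set Y} (hD : MeasurableSet D) (hE : MeasurableSet E)
    (hvis : ∀ᵐ y ∂μ, ∃ n, S^[n] y ∈ D) :
    ∃ ξ : Y → ℕ, Measurable ξ ∧ (∀ᵐ y ∂μ, FewBad (cy S ξ y)) ∧ (∀ y ∈ D, 2 ≤ ξ y) ∧
      (∀ y, y ∉ D → y ∈ E → ξ y = 0) ∧ (∀ y, y ∉ D → y ∉ E → ξ y = 1) := by
  obtain ⟨ξ, hξ, hfr⟩ := Pool.Agent.R205.PC.exists_labels μ S hS hap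
    Pool.Agent.R205.PC.Lk Pool.Agent.R205.PC.Lk_mono
  refine ⟨lab S ξ D E, meas_lab hS.measurable hξ hD hE, ?_, fun y hy => lab_D hy, ?_, ?_⟩
  · filter_upwards [hfr, ae_rare hS hD hvis] with y g1 g2
    exact few_bad g1 g2
  · intro y hyD hyE
    unfold lab; rw [if_neg hyD, if_pos hyE]
  · intro y hyD hyE
    unfold lab; rw [if_neg hyD, if_neg hyE]

/-- labels along the orbits of an extension -/
lemma cy_ext {X : Type*} {R : X → X} {S : Y → Y} {pp : X → Y} (h : ∀ x, pp (R x) = S (pp x)) (ξ : Y → ℕ) (x : X) :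
    cy R (fun x => ξ (pp x)) x = cy S ξ (pp x) := by
  ext s
  unfold cy
  have h2 : Function.Semiconj pp R S := h
  show ξ (pp (R^[s] x)) = ξ (S^[s] (pp x))
  rw [(h2.iterate_right s).eq]

end core

variable {Y : Type*} [MeasurableSpace Y]

/-- the two level map -/
def twoF (S : Y → Y) (z : Y × Bool) : Y × Bool := if z.2 = true then (S z.1, false) else (z.1, true)

lemma meas_twoF {S : Y → Y} (hS : Measurable S) : Measurable (twoF S) := by
  unfold twoF
  refine Measurable.ite (measurable_snd (measurableSet_singleton true)) ?_ ?_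
  · exact (hS.comp measurable_fst).prodMk measurable_const
  · exact measurable_fst.prodMk measurable_const

/-- the inverse of the two level map -/
def twoI (S : Y → Y) (z : Y × Bool) : Y × Bool := if z.2 = true then (z.1, false) else (S z.1, true)

lemma meas_twoI {S : Y → Y} (hS : Measurable S) : Measurable (twoI S) := by
  unfold twoI
  refine Measurable.ite (measurable_snd (measurableSet_singleton true)) ?_ ?_
  · exact measurable_fst.prodMk measurable_const
  · exact (hS.comp measurable_fst).prodMk measurable_const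

/-- the two level map as an automorphism -/
def twoE (S : Y ≃ᵐ Y) : (Y × Bool) ≃ᵐ (Y × Bool) where
  toFun := twoF S
  invFun := twoI S.symm
  left_inv z := by
    obtain ⟨y, b⟩ := z
    cases b <;> simp [twoF, twoI]
  right_inv z := by
    obtain ⟨y, b⟩ := z
    cases b <;> simp [twoF, twoI]
  measurable_toFun := meas_twoF S.measurable
  measurable_invFun := meas_twoI S.symm.measurable

/-- the normalised measure on two copies -/
noncomputable def mu2 (μ : Measure Y) : Measure (Y × Bool) :=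
  (2⁻¹ : ℝ≥0∞) • (μ.map (fun y => (y, false)) + μ.map (fun y => (y, true)))

lemma mu2_apply (μ : Measure Y) {s : Set (Y × Bool)} (hs : MeasurableSet s) :
    mu2 μ s = 2⁻¹ * (μ {y | (y, false) ∈ s} + μ {y | (y, true) ∈ s}) := by
  have h : ∀ b : Bool, Measurable (fun y : Y => (y, b)) := fun b => measurable_id.prodMk measurable_const
  unfold mu2
  rw [Measure.smul_apply, Measure.add_apply, Measure.map_apply (h false) hs, Measure.map_apply (h true) hs,
    smul_eq_mul]
  rfl

instance (μ : Measure Y) [IsProbabilityMeasure μ] : IsProbabilityMeasure (mu2 μ) := ⟨by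
  rw [mu2_apply μ MeasurableSet.univ]
  simp only [Set.mem_univ, Set.ofPred_true, measure_univ]
  rw [one_add_one_eq_two, ENNReal.inv_mul_cancel (by norm_num) (by norm_num)]⟩

lemma meas_sec {s : Set (Y × Bool)} (hs : MeasurableSet s) (b : Bool) : MeasurableSet {y | (y, b) ∈ s} := by
  have h : Measurable (fun y : Y => (y, b)) := measurable_id.prodMk measurable_const
  exact h hs

lemma mp_two {μ : Measure Y} {S : Y ≃ᵐ Y} (hS : MeasurePreserving S μ μ) :
    MeasurePreserving (twoE S) (mu2 μ) (mu2 μ) := by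
  have hm : Measurable (twoE S) := (twoE S).measurable
  have e1 : ∀ s : Set (Y × Bool), {y | (y, false) ∈ (twoE S) ⁻¹' s} = {y | (y, true) ∈ s} := by
    intro s; ext y; rfl
  have e2 : ∀ s : Set (Y × Bool), {y | (y, true) ∈ (twoE S) ⁻¹' s} = S ⁻¹' {y | (y, false) ∈ s} := by
    intro s; ext y; rfl
  refine ⟨hm, ?_⟩
  ext s hs
  rw [Measure.map_apply hm hs, mu2_apply μ (hm hs), mu2_apply μ hs, e1, e2,
    hS.measure_preimage (meas_sec hs false).nullMeasurableSet, add_comm]

lemma two_two (S : Y ≃ᵐ Y) (z : Y × Bool) : (twoE S) ((twoE S) z) = (S z.1, z.2) := by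
  obtain ⟨y, b⟩ := z
  cases b <;> rfl

lemma two_snd (S : Y ≃ᵐ Y) (z : Y × Bool) : ((twoE S) z).2 = !z.2 := by
  obtain ⟨y, b⟩ := z
  cases b <;> rfl

lemma two_even (S : Y ≃ᵐ Y) (m : ℕ) : ∀ z : Y × Bool, (twoE S)^[2 * m] z = (S^[m] z.1, z.2) := by
  induction m with
  | zero => intro z; rfl
  | succ m ih =>
    intro z
    have : 2 * (m + 1) = 2 * m + 2 := by ring
    rw [this, Function.iterate_add_apply]
    have h2 : (twoE S)^[2] z = (S z.1, z.2) := two_two S z
    rw [h2, ih, Function.iterate_succ_apply]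

lemma ap_two {μ : Measure Y} [IsProbabilityMeasure μ] {S : Y ≃ᵐ Y}
    (hap : ∀ᵐ y ∂μ, ∀ n : ℕ, 0 < n → S^[n] y ≠ y) :
    ∀ᵐ z ∂(mu2 μ), ∀ n : ℕ, 0 < n → (twoE S)^[n] z ≠ z := by
  have h1 : ∀ᵐ z ∂(mu2 μ), ∀ n : ℕ, 0 < n → S^[n] z.1 ≠ z.1 := by
    unfold mu2
    apply Measure.ae_smul_measure
    rw [ae_add_measure_iff]
    have h2 : ∀ b : Bool, ∀ᵐ z ∂(μ.map (fun y => (y, b))), ∀ n : ℕ, 0 < n → S^[n] z.1 ≠ z.1 := by
      intro b
      have h3 : Measurable (fun y : Y => (y, b)) := measurable_id.prodMk measurable_const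
      have hq : Measure.QuasiMeasurePreserving Prod.fst (μ.map (fun y => (y, b))) μ := by
        refine ⟨measurable_fst, ?_⟩
        rw [Measure.map_map measurable_fst h3]
        have : (Prod.fst ∘ fun y : Y => (y, b)) = id := rfl
        rw [this, Measure.map_id]
      exact hq.ae hap
    exact ⟨h2 false, h2 true⟩
  filter_upwards [h1] with z hz n hn heq
  rcases Nat.even_or_odd' n with ⟨m, hm | hm⟩
  · rw [hm, two_even] at heq
    have h2 : S^[m] z.1 = z.1 := congrArg Prod.fst heq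
    exact hz m (by omega) h2
  · rw [hm, Function.iterate_succ_apply', two_even] at heq
    have h2 := congrArg Prod.snd heq
    rw [two_snd] at h2
    simp at h2

lemma vis_two {μ : Measure Y} {S : Y ≃ᵐ Y} {D : Set Y} (hvis : ∀ᵐ y ∂μ, ∃ n, S^[n] y ∈ D) :
    ∀ᵐ z ∂(mu2 μ), ∃ n, (twoE S)^[n] z ∈ {z : Y × Bool | z.2 = true ∧ z.1 ∈ D} := by
  unfold mu2
  apply Measure.ae_smul_measure
  rw [ae_add_measure_iff]
  have h2 : ∀ b : Bool, ∀ᵐ z ∂(μ.map (fun y => (y, b))),
      ∃ n, (twoE S)^[n] z ∈ {z : Y × Bool | z.2 = true ∧ z.1 ∈ D} := by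
    intro b
    have h3 : MeasurableEmbedding (fun y : Y => (y, b)) := measurableEmbedding_prod_mk_right b
    rw [h3.ae_map_iff]
    filter_upwards [hvis] with y hy
    obtain ⟨n, hn⟩ := hy
    cases b
    · refine ⟨2 * n + 1, ?_⟩
      rw [Function.iterate_succ_apply', two_even]
      exact ⟨rfl, hn⟩
    · refine ⟨2 * n, ?_⟩
      rw [two_even]
      exact ⟨rfl, hn⟩
  exact ⟨h2 false, h2 true⟩

/-- the two level maps of an extension -/
lemma mp_ext {X : Type*} [MeasurableSpace X] {ρ : Measure X} {μ : Measure Y} {π : X → Y}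
    (hπ : MeasurePreserving π ρ μ) :
    MeasurePreserving (fun z : X × Bool => (π z.1, z.2)) (mu2 ρ) (mu2 μ) := by
  have hm : Measurable (fun z : X × Bool => (π z.1, z.2)) :=
    (hπ.measurable.comp measurable_fst).prodMk measurable_snd
  refine ⟨hm, ?_⟩
  ext s hs
  rw [Measure.map_apply hm hs, mu2_apply ρ (hm hs), mu2_apply μ hs]
  have e1 : ∀ b : Bool, ρ {x | (x, b) ∈ (fun z : X × Bool => (π z.1, z.2)) ⁻¹' s} = μ {y | (y, b) ∈ s} := by
    intro b
    have : {x | (x, b) ∈ (fun z : X × Bool => (π z.1, z.2)) ⁻¹' s} = π ⁻¹' {y | (y, b) ∈ s} := by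
      ext x; rfl
    rw [this, hπ.measure_preimage (meas_sec hs b).nullMeasurableSet]
  rw [e1, e1]

lemma two_ext {X : Type*} [MeasurableSpace X] {R : X ≃ᵐ X} {S : Y ≃ᵐ Y} {π : X → Y}
    (h : ∀ x, π (R x) = S (π x)) (z : X × Bool) :
    (fun z : X × Bool => (π z.1, z.2)) (twoE R z) = twoE S ((fun z : X × Bool => (π z.1, z.2)) z) := by
  obtain ⟨x, b⟩ := z
  cases b
  · rfl
  · show (π (R x), false) = (S (π x), false)
    rw [h]

end Pool.Agent.V8H23.Tow
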