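import Pool.Agent.V8H23.Tow.Fub
import Pool.Agent.V8H53.Ind.Asm

/-!
# Almost every outcome: convergence of the multiple averages of the induced map
-/

set_option autoImplicit false
set_option linter.unusedSectionVars false

open MeasureTheory Filter Topology Set Finset
open scoped ENNReal ComplexConjugate

namespace Pool.Agent.V8H23.Tow

open Pool.Agent.V8H53.Ind
open Pool.Agent.R205.PC (ex fx dd dd_meas dd_bound dd_approx)

open Classical in
/-- the proportion of the times in bad blocks tends to zero -/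
def FewBad (c : ℕ → ℕ) : Prop := ∀ C : ℕ, Tendsto (fun l : ℕ =>
  (((range (C * l ^ 8)).filter (fun s => ¬ gbl c l (s / G2 l))).card : ℝ) / (l : ℝ) ^ 8) atTop (𝓝 0)

lemma Xv_nth {c : ℕ → ℕ} {θ : Om} (hinf : (Set.ofPred fun s : ℕ => θ (c s) = true).Infinite) (h : ℕ → ℂ)
    (M R : ℕ) (hR : Nat.nth (fun s => θ (c s) = true) M < R) :
    Xv c h M R θ = h (Nat.nth (fun s => θ (c s) = true) M) := by
  classical
  have hc : ∀ s, cnt c θ s = Nat.count (fun s => θ (c s) = true) s := by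
    intro s
    rw [Nat.count_eq_card_filter_range]
    unfold cnt
    congr 1
  unfold Xv
  rw [Finset.sum_eq_single (Nat.nth (fun s => θ (c s) = true) M)]
  · rw [if_pos]
    refine ⟨Nat.nth_mem_of_infinite hinf M, ?_⟩
    rw [hc, Nat.count_nth_of_infinite hinf]
  · intro s _ hne
    rw [if_neg]
    rintro ⟨h1, h2⟩
    rw [hc] at h2
    apply hne
    rw [← h2, Nat.nth_count]
    exact h1
  · intro h
    exact absurd (Finset.mem_range.2 hR) h

lemma nth_bound {p : ℕ → Prop} (hlin : ∀ M, Nat.nth p M ≤ 2 * M + 2) (D i : ℕ) :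
    ∃ B : ℕ, ∀ l : ℕ, 1 ≤ l → ∀ M ≤ D * l ^ 8 + i, Nat.nth p M < B * l ^ 8 := by
  refine ⟨2 * D + 2 * i + 3, fun l hl M hM => ?_⟩
  have hl8 : 1 ≤ l ^ 8 := Nat.one_le_pow _ _ (by omega)
  have h1 := hlin M
  have h2 : i ≤ i * l ^ 8 := Nat.le_mul_of_pos_right _ (by omega)
  have h3 : (2 * D + 2 * i + 3) * l ^ 8 = 2 * (D * l ^ 8) + 2 * (i * l ^ 8) + 3 * l ^ 8 := by ring
  omega

/-- the visits to `A` are frequent -/
structure Lin {Y : Type*} (S : Y → Y) (A : Set Y) (y : Y) : Prop where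
  mem : y ∈ A
  inf : (Set.ofPred fun s : ℕ => S^[s] y ∈ A).Infinite
  lin : ∀ M, Nat.nth (fun s => S^[s] y ∈ A) M ≤ 2 * M + 2

variable {Y : Type*} [MeasurableSpace Y]

/-- the restriction to the good blocks is harmless -/
lemma psg_to_psi {S : Y → Y} {ξ : Y → ℕ} {θ : Om} {y : Y}
    (hg : Lin S (thin ξ θ) y) (hb : FewBad (cy S ξ y)) (a : ℕ → ℕ) (f : ℕ → Y → ℂ) (C : ℝ) (hC0 : 0 ≤ C)
    (hfC : ∀ j y, ‖f j y‖ ≤ C) (r i : ℕ) (har : 1 ≤ a r)
    (h : Tendsto (fun l : ℕ => (1 / ((l ^ 8 : ℕ) : ℂ)) *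
      ∑ n ∈ range (l ^ 8), Psg (cy S ξ y) (G2 l) (gbl (cy S ξ y) l) a
        (fun j => vy S (f j) y) (vy S (f r) y) r i (R2 l) n θ) atTop (𝓝 0)) :
    Tendsto (fun l : ℕ => (1 / ((l ^ 8 : ℕ) : ℂ)) *
      ∑ n ∈ range (l ^ 8), Psi (cy S ξ y) a
        (fun j => vy S (f j) y) (vy S (f r) y) r i (R2 l) n θ) atTop (𝓝 0) := by
  classical
  set c := cy S ξ y with hc
  set D : ℝ := C ^ r * (C + C) with hD
  have hD0 : 0 ≤ D := by positivity
  set p : ℕ → Prop := fun s => θ (c s) = true with hp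
  have hinf : (Set.ofPred p).Infinite := hg.inf
  obtain ⟨B, hB⟩ := nth_bound (p := p) hg.lin (a r) i
  -- the number of bad terms
  have hcount : ∀ᶠ l : ℕ in atTop, ‖(1 / ((l ^ 8 : ℕ) : ℂ)) *
      ∑ n ∈ range (l ^ 8), (Psi c a (fun j => vy S (f j) y) (vy S (f r) y) r i (R2 l) n θ -
        Psg c (G2 l) (gbl c l) a (fun j => vy S (f j) y) (vy S (f r) y) r i (R2 l) n θ)‖ ≤
      D * ((((range (B * l ^ 8)).filter (fun s => ¬ gbl c l (s / G2 l))).card : ℝ) / (l : ℝ) ^ 8 +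
        25 * (1 / (l : ℝ))) := by
    filter_upwards [eventually_ge_atTop (B + 1)] with l hl
    have hl1 : 1 ≤ l := by omega
    have hBR : B * l ^ 8 ≤ R2 l := by
      refine le_trans ?_ (R2_ge l)
      have h1 : B ≤ l ^ 2 := by nlinarith
      calc B * l ^ 8 ≤ l ^ 2 * l ^ 8 := Nat.mul_le_mul_right _ h1
        _ = l ^ 10 := by ring
    set M1 : ℕ → ℕ := fun n => a r * (n + 1) + i - 2 * G2 l - 1 with hM1
    have hnth : ∀ n < l ^ 8, Nat.nth p (M1 n) < B * l ^ 8 := by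
      intro n hn
      apply hB l hl1
      have h1 : a r * (n + 1) ≤ a r * l ^ 8 := Nat.mul_le_mul_left _ hn
      simp only [hM1]
      omega
    have hXv : ∀ n < l ^ 8, Xv c (g0 (G2 l) (gbl c l)) (M1 n) (R2 l) θ =
        g0 (G2 l) (gbl c l) (Nat.nth p (M1 n)) := fun n hn =>
      Xv_nth hinf _ _ _ (lt_of_lt_of_le (hnth n hn) hBR)
    set bad : Finset ℕ := (range (l ^ 8)).filter (fun n => ¬ gbl c l (Nat.nth p (M1 n) / G2 l)) with hbad
    have hterm : ∀ n ∈ range (l ^ 8), ‖Psi c a (fun j => vy S (f j) y) (vy S (f r) y) r i (R2 l) n θ -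
        Psg c (G2 l) (gbl c l) a (fun j => vy S (f j) y) (vy S (f r) y) r i (R2 l) n θ‖ ≤
        if ¬ gbl c l (Nat.nth p (M1 n) / G2 l) then D else 0 := by
      intro n hn
      rw [Finset.mem_range] at hn
      have e1 : Psi c a (fun j => vy S (f j) y) (vy S (f r) y) r i (R2 l) n θ -
        Psg c (G2 l) (gbl c l) a (fun j => vy S (f j) y) (vy S (f r) y) r i (R2 l) n θ =
        (1 - g0 (G2 l) (gbl c l) (Nat.nth p (M1 n))) *
          Psi c a (fun j => vy S (f j) y) (vy S (f r) y) r i (R2 l) n θ := by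
        unfold Psg
        rw [hXv n hn]
        ring
      rw [e1, norm_mul]
      have h2 := Psi_bdd c a (fun j => vy S (f j) y) (vy S (f r) y) C hC0 (fun j s => hfC j _)
        (fun s => hfC r _) r i (R2 l) n θ
      unfold g0
      by_cases h3 : gbl c l (Nat.nth p (M1 n) / G2 l)
      · simp [h3]
      · simpa [h3] using h2
    have hcard : (bad.card : ℝ) ≤
        (((range (B * l ^ 8)).filter (fun s => ¬ gbl c l (s / G2 l))).card : ℝ) + (2 * G2 l + 1 : ℕ) := by
      have h1 : bad ⊆ range (2 * G2 l + 1) ∪ bad.filter (fun n => 2 * G2 l + 1 ≤ n) := by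
        intro n hn
        rw [Finset.mem_union, Finset.mem_range, Finset.mem_filter]
        by_cases h2 : n < 2 * G2 l + 1
        · left; exact h2
        · right; exact ⟨hn, not_lt.1 h2⟩
      have h2 : (bad.filter (fun n => 2 * G2 l + 1 ≤ n)).card ≤
          ((range (B * l ^ 8)).filter (fun s => ¬ gbl c l (s / G2 l))).card := by
        apply Finset.card_le_card_of_injOn (fun n => Nat.nth p (M1 n))
        · intro n hn
          rw [Finset.mem_coe, Finset.mem_filter, hbad, Finset.mem_filter, Finset.mem_range] at hn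
          rw [Finset.mem_coe, Finset.mem_filter, Finset.mem_range]
          exact ⟨hnth n hn.1.1, hn.1.2⟩
        · intro n hn n' hn' hnn
          rw [Finset.mem_coe, Finset.mem_filter] at hn hn'
          have h3 : M1 n = M1 n' := (Nat.nth_injective hinf) hnn
          simp only [hM1] at h3
          have h4 : n + 1 ≤ a r * (n + 1) := Nat.le_mul_of_pos_left _ har
          have h5 : n' + 1 ≤ a r * (n' + 1) := Nat.le_mul_of_pos_left _ har
          have h6 : a r * (n + 1) = a r * (n' + 1) := by omega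
          have := Nat.eq_of_mul_eq_mul_left (by omega) h6
          omega
      have h3 := (Finset.card_le_card h1).trans (Finset.card_union_le _ _)
      rw [Finset.card_range] at h3
      have h4 : bad.card ≤ ((range (B * l ^ 8)).filter (fun s => ¬ gbl c l (s / G2 l))).card + (2 * G2 l + 1) := by
        omega
      exact_mod_cast h4
    have hl0 : (0:ℝ) < l := by exact_mod_cast hl1
    have hl1' : (1:ℝ) ≤ l := by exact_mod_cast hl1
    rw [norm_mul, norm_div, norm_one, Complex.norm_natCast]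
    have h5 : ‖∑ n ∈ range (l ^ 8), (Psi c a (fun j => vy S (f j) y) (vy S (f r) y) r i (R2 l) n θ -
        Psg c (G2 l) (gbl c l) a (fun j => vy S (f j) y) (vy S (f r) y) r i (R2 l) n θ)‖ ≤ bad.card * D := by
      refine (norm_sum_le_of_le _ hterm).trans ?_
      rw [← Finset.sum_filter, Finset.sum_const, nsmul_eq_mul]
    have hG : ((2 * G2 l + 1 : ℕ) : ℝ) ≤ 25 * (l : ℝ) ^ 7 := by
      have h6 : 2 * G2 l + 1 ≤ 25 * l ^ 7 := by
        have h7 := G2_le l hl1
        have h8 : 1 ≤ l ^ 7 := Nat.one_le_pow _ _ hl1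
        have h9 : l ^ 5 ≤ l ^ 7 := Nat.pow_le_pow_right hl1 (by norm_num)
        omega
      exact_mod_cast h6
    calc 1 / ((l ^ 8 : ℕ) : ℝ) * ‖∑ n ∈ range (l ^ 8), (Psi c a (fun j => vy S (f j) y) (vy S (f r) y) r i (R2 l) n θ -
        Psg c (G2 l) (gbl c l) a (fun j => vy S (f j) y) (vy S (f r) y) r i (R2 l) n θ)‖
        ≤ 1 / ((l ^ 8 : ℕ) : ℝ) * (bad.card * D) := by gcongr
      _ ≤ 1 / ((l ^ 8 : ℕ) : ℝ) * (((((range (B * l ^ 8)).filter (fun s => ¬ gbl c l (s / G2 l))).card : ℝ) +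
            25 * (l : ℝ) ^ 7) * D) := by
          gcongr
          linarith
      _ = D * ((((range (B * l ^ 8)).filter (fun s => ¬ gbl c l (s / G2 l))).card : ℝ) / (l : ℝ) ^ 8 +
        25 * (1 / (l : ℝ))) := by
          push_cast
          field_simp
  have hlim : Tendsto (fun l : ℕ => D * ((((range (B * l ^ 8)).filter (fun s => ¬ gbl c l (s / G2 l))).card : ℝ) / (l : ℝ) ^ 8 +
        25 * (1 / (l : ℝ)))) atTop (𝓝 0) := by
    have h1 := ((hb B).add ((tendsto_one_div_atTop_nhds_zero_nat (𝕜 := ℝ)).const_mul 25)).const_mul D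
    simpa using h1
  have hdiff : Tendsto (fun l : ℕ => (1 / ((l ^ 8 : ℕ) : ℂ)) *
      ∑ n ∈ range (l ^ 8), (Psi c a (fun j => vy S (f j) y) (vy S (f r) y) r i (R2 l) n θ -
        Psg c (G2 l) (gbl c l) a (fun j => vy S (f j) y) (vy S (f r) y) r i (R2 l) n θ)) atTop (𝓝 0) :=
    squeeze_zero_norm' hcount hlim
  have hfin := hdiff.add h
  rw [add_zero] at hfin
  refine hfin.congr fun l => ?_
  rw [← mul_add, ← Finset.sum_add_distrib]
  congr 1
  refine Finset.sum_congr rfl fun n _ => ?_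
  ring

lemma convert_seqg {S : Y → Y} {ξ : Y → ℕ} {θ : Om} {y : Y}
    (hg : Lin S (thin ξ θ) y) (a : ℕ → ℕ) (f : ℕ → Y → ℂ) (C : ℝ) (hC0 : 0 ≤ C)
    (hfC : ∀ j y, ‖f j y‖ ≤ C) (r i : ℕ)
    (h : Tendsto (fun l : ℕ => (1 / ((l ^ 8 : ℕ) : ℂ)) *
      ∑ n ∈ range (l ^ 8), Psi (cy S ξ y) a (fun j => vy S (f j) y) (vy S (f r) y) r i (R2 l) n θ)
      atTop (𝓝 0)) :
    Tendsto (fun N : ℕ => (N : ℂ)⁻¹ * ∑ n ∈ range N,
      (∏ j ∈ range r, f j ((ind S (thin ξ θ))^[a j * (n + 1)] y)) *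
        (f r ((ind S (thin ξ θ))^[a r * (n + 1) + i] y) - f r ((ind S (thin ξ θ))^[a r * (n + 1) + i + 1] y)))
      atTop (𝓝 0) := by
  apply fill_pow _ (C ^ r * (C + C))
  · intro n
    rw [norm_mul]
    refine mul_le_mul ?_ ?_ (norm_nonneg _) (by positivity)
    · rw [norm_prod]
      refine (Finset.prod_le_prod (fun j _ => norm_nonneg _) (fun j _ => hfC j _)).trans ?_
      simp
    · exact (norm_sub_le _ _).trans (add_le_add (hfC _ _) (hfC _ _))
  -- a bound for the exponents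
  obtain ⟨D, hD⟩ : ∃ D : ℕ, ∀ j ≤ r, a j ≤ D := by
    refine ⟨(range (r + 1)).sup a, fun j hj => ?_⟩
    exact Finset.le_sup (f := a) (Finset.mem_range.2 (by omega))
  obtain ⟨B, hB⟩ := nth_bound hg.lin D (i + 1)
  refine h.congr' ?_
  filter_upwards [eventually_ge_atTop (B + 1)] with l hl
  congr 1
  have hl1 : 1 ≤ l := by omega
  have hBR : B * l ^ 8 ≤ R2 l := by
    refine le_trans ?_ (R2_ge l)
    have h1 : B ≤ l ^ 2 := by nlinarith
    calc B * l ^ 8 ≤ l ^ 2 * l ^ 8 := Nat.mul_le_mul_right _ h1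
      _ = l ^ 10 := by ring
  have hX : ∀ (u : Y → ℂ) (M : ℕ), M ≤ D * l ^ 8 + (i + 1) →
      Xv (cy S ξ y) (vy S u y) M (R2 l) θ = u ((ind S (thin ξ θ))^[M] y) := by
    intro u M hM
    rw [Xv_eq hg.inf u M (R2 l) (lt_of_lt_of_le (hB l hl1 M hM) hBR),
      iter_ind S (thin ξ θ) y hg.mem hg.inf M]
  have hidx : ∀ j ≤ r, ∀ n < l ^ 8, ∀ e ≤ i + 1, a j * (n + 1) + e ≤ D * l ^ 8 + (i + 1) := by
    intro j hj n hn e he
    have h1 : a j * (n + 1) ≤ D * l ^ 8 := Nat.mul_le_mul (hD j hj) hn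
    omega
  refine Finset.sum_congr rfl fun n hn => ?_
  rw [Finset.mem_range] at hn
  unfold Psi
  rw [hX (f r) (a r * (n + 1) + i) (hidx r le_rfl n hn i (by omega)),
    hX (f r) (a r * (n + 1) + i + 1) (by have := hidx r le_rfl n hn (i + 1) le_rfl; omega)]
  congr 1
  refine Finset.prod_congr rfl fun j hj => ?_
  rw [Finset.mem_range] at hj
  exact hX (f j) _ (by have := hidx j (by omega) n hn 0 (by omega); omega)

end Pool.Agent.V8H23.Tow
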