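import Pool.Agent.V8H23.Tow.Few
import Pool.Agent.V8H53.Ind.Pos

/-!
# Random subsets of a set of positive measure
-/

set_option autoImplicit false
set_option linter.unusedSectionVars false

open MeasureTheory Filter Topology Set Finset
open scoped ENNReal ComplexConjugate

namespace Pool.Agent.V8H23.Tow

open Pool.Agent.V8H53.Ind
open Pool.Agent.R205.PC (Lk Fresh)

lemma ae_update (ν : Measure Bool) [IsProbabilityMeasure ν] {b : Bool} (hb : 0 < ν {b}) (i : ℕ)
    {P : Om → Prop} (hP : ∀ᵐ θ ∂(PP ν), P θ) : ∀ᵐ θ ∂(PP ν), P (Function.update θ i b) := by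
  have hmp : MeasurePreserving (fun p : Om × Bool => Function.update p.1 i p.2)
    ((PP ν).prod ν) (PP ν) := Pool.Agent.R205.PC.mp_update ν i
  have h1 := hmp.quasiMeasurePreserving.ae hP
  have h2 := Measure.ae_ae_of_ae_prod h1
  filter_upwards [h2] with θ hθ
  by_contra hcon
  rw [ae_iff] at hθ
  have h3 : ν {b} ≤ ν {b' | ¬ P (Function.update θ i b')} := by
    apply measure_mono
    intro b' hb'
    rw [Set.mem_singleton_iff] at hb'
    subst hb'
    exact hcon
  exact absurd (h3.trans hθ.le) (not_le.2 hb)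

/-- the probability that all labels of visits to `D` have the same outcome is zero -/
lemma all_null2 (ν : Measure Bool) [IsProbabilityMeasure ν] {bb : Bool} (hq : ν {bb} < 1) (c : ℕ → ℕ)
    (hf : FewBad c) : (PP ν) {θ : Om | ∀ t, 2 ≤ c t → θ (c t) = bb} = 0 := by
  classical
  have key : ∀ᶠ l : ℕ in atTop, (PP ν) {θ : Om | ∀ t, 2 ≤ c t → θ (c t) = bb} ≤ (ν {bb}) ^ l := by
    filter_upwards [(tendsto_order.1 (hf 1)).2 1 one_pos, eventually_ge_atTop 64] with l hl hl64
    obtain ⟨s, hs1, hs2⟩ : ∃ s ∈ range (1 * l ^ 8), gbl c l (s / G2 l) := by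
      by_contra hcon
      push Not at hcon
      rw [Finset.filter_true_of_mem hcon, Finset.card_range, one_mul] at hl
      have h0 : (0:ℝ) < (l : ℝ) ^ 8 := by
        have : (0:ℝ) < l := by
          have : 0 < l := by omega
          exact_mod_cast this
        positivity
      push_cast at hl
      rw [div_self h0.ne'] at hl
      exact lt_irrefl _ hl
    obtain ⟨T, hT1, hT2, hT3⟩ := hs2
    have hG0 : 0 < G2 l := lt_of_lt_of_le (by positivity) (G2_ge l)
    have hsb : s / G2 l < l ^ 5 := by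
      rw [Nat.div_lt_iff_lt_mul hG0]
      rw [Finset.mem_range, one_mul] at hs1
      have h2 := R2_ge l
      have h3 : l ^ 8 ≤ l ^ 10 := Nat.pow_le_pow_right (by omega) (by norm_num)
      have h4 : R2 l = l ^ 5 * G2 l := rfl
      omega
    have hinj : Set.InjOn c T := by
      intro t ht s' hs' hts
      by_contra hne
      have h1 := (hT2 s' hs').2
      have h2 : (s / G2 l + 2) * G2 l ≤ (l ^ 5 + 1) * G2 l := Nat.mul_le_mul_right _ (by omega)
      exact hT3 t ht s' (by omega) (fun h => hne h.symm) hts.symm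
    set U : Finset ℕ := (T.image c).filter (fun v => 2 ≤ v) with hU
    have hcard : l ≤ #U := by
      have h1 : #(T.image c) = l ^ 4 := by rw [Finset.card_image_of_injOn hinj, hT1]
      have h2 : T.image c ⊆ U ∪ range 2 := by
        intro v hv
        rw [Finset.mem_union, hU, Finset.mem_filter, Finset.mem_range]
        by_cases h : 2 ≤ v
        · left; exact ⟨hv, h⟩
        · right; omega
      have h3 := (Finset.card_le_card h2).trans (Finset.card_union_le _ _)
      rw [h1, Finset.card_range] at h3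
      have h4 : l + 2 ≤ l ^ 4 := by
        have h5 : 2 * l ≤ l ^ 4 := by
          have h6 : 2 ≤ l ^ 3 := le_trans (by omega) (Nat.le_self_pow (by norm_num) l)
          calc 2 * l ≤ l ^ 3 * l := Nat.mul_le_mul_right _ h6
            _ = l ^ 4 := by ring
        omega
      omega
    have hsub : {θ : Om | ∀ t, 2 ≤ c t → θ (c t) = bb} ⊆ Set.pi (U : Set ℕ) (fun _ => {bb}) := by
      intro θ hθ i hi
      rw [Finset.mem_coe, hU, Finset.mem_filter] at hi
      obtain ⟨t, _, rfl⟩ := Finset.mem_image.1 hi.1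
      exact hθ t hi.2
    calc (PP ν) {θ : Om | ∀ t, 2 ≤ c t → θ (c t) = bb} ≤ (PP ν) (Set.pi (U : Set ℕ) (fun _ => {bb})) :=
          measure_mono hsub
      _ = ∏ _i ∈ U, ν {bb} := Measure.infinitePi_pi _ (fun _ _ => measurableSet_singleton _)
      _ = (ν {bb}) ^ (#U) := by rw [Finset.prod_const]
      _ ≤ (ν {bb}) ^ l := pow_le_pow_of_le_one zero_le hq.le hcard
  have h0 := ENNReal.tendsto_pow_atTop_nhds_zero_of_lt_one hq
  have : (PP ν) {θ : Om | ∀ t, 2 ≤ c t → θ (c t) = bb} ≤ 0 := ge_of_tendsto h0 key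
  exact le_antisymm this zero_le

variable {Y : Type*} [MeasurableSpace Y] {μ : Measure Y} [IsProbabilityMeasure μ] {S : Y → Y}

lemma meas_code (hS : Measurable S) {ξ : Y → ℕ} (hξ : Measurable ξ) {D : Set Y} (hD : MeasurableSet D) :
    Measurable (code S ξ D) := by
  have h1 : ∀ n : ℕ, Measurable (fun y : Y => Encodable.encode ((List.range n).map (fun j => ξ (S^[j] y)))) := by
    intro n
    have h2 : Measurable (fun v : Fin n → ℕ => Encodable.encode (List.ofFn v)) := Measurable.of_discrete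
    have h3 : Measurable (fun y : Y => (fun j : Fin n => ξ (S^[(j : ℕ)] y))) :=
      measurable_pi_lambda _ fun j => hξ.comp (hS.iterate j)
    have h4 := h2.comp h3
    have h5 : (fun y : Y => Encodable.encode ((List.range n).map (fun j => ξ (S^[j] y)))) =
        (fun v : Fin n → ℕ => Encodable.encode (List.ofFn v)) ∘ (fun y : Y => (fun j : Fin n => ξ (S^[(j : ℕ)] y))) := by
      ext y
      simp only [Function.comp]
      congr 1
      apply List.ext_getElem
      · simp
      · intro i h6 h7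
        simp
    rw [h5]
    exact h4
  have h2 : Measurable (fun p : ℕ × Y => Encodable.encode ((List.range p.1).map (fun j => ξ (S^[j] p.2)))) :=
    measurable_from_prod_countable_right h1
  exact h2.comp ((meas_ret hS hD).prodMk measurable_id)

lemma meas_lab (hS : Measurable S) {ξ : Y → ℕ} (hξ : Measurable ξ) {D E : Set Y} (hD : MeasurableSet D)
    (hE : MeasurableSet E) : Measurable (lab S ξ D E) := by
  classical
  unfold lab
  refine Measurable.ite hD ((meas_code hS hξ hD).const_add 2) ?_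
  exact Measurable.ite hE measurable_const measurable_const

lemma lab_D {ξ : Y → ℕ} {D E : Set Y} {y : Y} (hy : y ∈ D) : 2 ≤ lab S ξ D E y := by
  unfold lab; rw [if_pos hy]; omega

lemma D_of_lab {ξ : Y → ℕ} {D E : Set Y} {y : Y} (h : 2 ≤ lab S ξ D E y) : y ∈ D := by
  unfold lab at h
  by_contra hcon
  rw [if_neg hcon] at h
  split_ifs at h <;> omega

lemma meas_bitb (S : Y → Y) (ξ : Y → ℕ) (hS : Measurable S) (hξ : Measurable ξ) (s : ℕ) (bb : Bool) :
    MeasurableSet {w : Om × Y | w.1 (cy S ξ w.2 s) ≠ bb} := by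
  have h1 : Measurable (fun q : ℕ × Om => q.2 q.1) :=
    measurable_from_prod_countable_right fun n => measurable_pi_apply n
  have h2 : Measurable (fun w : Om × Y => (ξ (S^[s] w.2), w.1)) :=
    (hξ.comp ((hS.iterate s).comp measurable_snd)).prodMk measurable_fst
  exact ((h1.comp h2) (measurableSet_singleton bb)).compl

/-- the random part of the kept set has positive measure -/
lemma ae_pos2 (ν : Measure Bool) [IsProbabilityMeasure ν] {bb : Bool} (hq : ν {bb} < 1) (hS : MeasurePreserving S μ μ)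
    {ξ : Y → ℕ} (hξ : Measurable ξ) (hfb : ∀ᵐ y ∂μ, FewBad (cy S ξ y)) :
    ∀ᵐ θ ∂(PP ν), 0 < μ.real {y | 2 ≤ ξ y ∧ θ (ξ y) ≠ bb} := by
  have hset : MeasurableSet {w : Om × Y | ∃ t, 2 ≤ cy S ξ w.2 t ∧ w.1 (cy S ξ w.2 t) ≠ bb} := by
    have : {w : Om × Y | ∃ t, 2 ≤ cy S ξ w.2 t ∧ w.1 (cy S ξ w.2 t) ≠ bb} =
        ⋃ t, ({w : Om × Y | 2 ≤ cy S ξ w.2 t} ∩ {w : Om × Y | w.1 (cy S ξ w.2 t) ≠ bb}) := by
      ext w; simp
    rw [this]
    refine MeasurableSet.iUnion fun t => MeasurableSet.inter ?_ (meas_bitb S ξ hS.measurable hξ t bb)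
    have h1 : Measurable (fun w : Om × Y => cy S ξ w.2 t) := (hξ.comp (hS.measurable.iterate t)).comp measurable_snd
    exact measurableSet_le measurable_const h1
  have h1 : ∀ᵐ θ ∂(PP ν), ∀ᵐ y ∂μ, ∃ t, 2 ≤ cy S ξ y t ∧ θ (cy S ξ y t) ≠ bb := by
    rw [Measure.ae_ae_comm hset]
    filter_upwards [hfb] with y hy
    rw [ae_iff]
    have h2 := all_null2 ν hq (cy S ξ y) hy
    convert h2 using 2
    ext θ
    simp
  filter_upwards [h1] with θ hθ
  by_contra hcon
  have h3 : μ {y | 2 ≤ ξ y ∧ θ (ξ y) ≠ bb} = 0 := by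
    have h4 : μ.real {y | 2 ≤ ξ y ∧ θ (ξ y) ≠ bb} = 0 := le_antisymm (not_lt.1 hcon) measureReal_nonneg
    exact (measureReal_eq_zero_iff).1 h4
  have h5 : ∀ᵐ y ∂μ, ∀ t, S^[t] y ∉ {y | 2 ≤ ξ y ∧ θ (ξ y) ≠ bb} := by
    rw [ae_all_iff]
    intro t
    exact (hS.iterate t).quasiMeasurePreserving.ae (measure_eq_zero_iff_ae_notMem.1 h3)
  obtain ⟨y, hy1, hy2⟩ := (hθ.and h5).exists
  obtain ⟨t, ht⟩ := hy1
  exact hy2 t ht

lemma pos_small (ν : Measure Bool) [IsProbabilityMeasure ν] {ξ : Y → ℕ} (hξ : Measurable ξ) (bb : Bool) :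
    0 < (PP ν) {θ | μ {y | θ (ξ y) = bb} ≤ ν {bb}} := by
  have hE : MeasurableSet {w : Om × Y | w.1 (ξ w.2) = bb} := by
    have := (meas_bitb (id : Y → Y) ξ measurable_id hξ 0 bb).compl
    simp only [cy, Function.iterate_zero, id] at this
    convert this using 1
    ext w
    simp
  have h1 := Measure.prod_apply (μ := PP ν) (ν := μ) hE
  have h2 := Measure.prod_apply_symm (μ := PP ν) (ν := μ) hE
  have e1 : ∀ θ : Om, μ (Prod.mk θ ⁻¹' {w : Om × Y | w.1 (ξ w.2) = bb}) = μ {y | θ (ξ y) = bb} := fun θ => rfl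
  have e2 : ∀ y : Y, (PP ν) ((fun θ => (θ, y)) ⁻¹' {w : Om × Y | w.1 (ξ w.2) = bb}) = ν {bb} := by
    intro y
    have : ((fun θ : Om => (θ, y)) ⁻¹' {w : Om × Y | w.1 (ξ w.2) = bb}) =
        Set.pi (({ξ y} : Finset ℕ) : Set ℕ) (fun _ => {bb}) := by
      ext θ; simp
    rw [this, Measure.infinitePi_pi _ (fun _ _ => measurableSet_singleton _), Finset.prod_singleton]
  simp only [e1] at h1
  simp only [e2] at h2
  rw [lintegral_const, measure_univ, mul_one] at h2
  have h3 : ∫⁻ θ, μ {y | θ (ξ y) = bb} ∂(PP ν) = ν {bb} := by rw [← h1, h2]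
  have hm : Measurable (fun θ : Om => μ {y | θ (ξ y) = bb}) := measurable_measure_prodMk_left hE
  have h4 := measure_le_lintegral_pos (μ := PP ν) (f := fun θ : Om => μ {y | θ (ξ y) = bb}) hm.aemeasurable
  rw [h3] at h4
  exact h4

end Pool.Agent.V8H23.Tow
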