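import Pool.Agent.V8H23.Tow.Lab
import Pool.Agent.V8H53.Com.Fin

/-!
# Bad blocks are rare
-/

set_option autoImplicit false
set_option linter.unusedSectionVars false

open MeasureTheory Filter Topology Set Finset
open scoped ENNReal ComplexConjugate

namespace Pool.Agent.V8H23.Tow

open Pool.Agent.V8H53.Ind
open Pool.Agent.R205.PC (Lk Fresh)

variable {Y : Type*}

open Classical in
/-- long gaps between the visits to `D` are rare -/
def RareGaps (S : Y → Y) (D : Set Y) (y : Y) : Prop :=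
  ∀ ε : ℝ, 0 < ε → ∃ h : ℕ, ∀ᶠ n : ℕ in atTop,
    (((range n).filter (fun u => ∀ j < h, S^[u + j] y ∉ D)).card : ℝ) ≤ ε * n

lemma inf_of_rare {S : Y → Y} {D : Set Y} {y : Y} (hr : RareGaps S D y) : ∀ n, ∃ u, n < u ∧ S^[u] y ∈ D := by
  classical
  intro n0
  by_contra hcon
  push Not at hcon
  obtain ⟨h, hh⟩ := hr (1 / 2) (by norm_num)
  obtain ⟨n, hn1, hn2⟩ := (hh.and (eventually_ge_atTop (2 * n0 + 3))).exists
  have h1 : (range n).filter (fun u => n0 < u) ⊆ (range n).filter (fun u => ∀ j < h, S^[u + j] y ∉ D) := by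
    intro u hu
    rw [Finset.mem_filter] at hu ⊢
    exact ⟨hu.1, fun j _ => hcon _ (by omega)⟩
  have h2 : n - (n0 + 1) ≤ ((range n).filter (fun u => n0 < u)).card := by
    have : Finset.Ico (n0 + 1) n ⊆ (range n).filter (fun u => n0 < u) := by
      intro u hu
      rw [Finset.mem_Ico] at hu
      rw [Finset.mem_filter, Finset.mem_range]
      omega
    have := Finset.card_le_card this
    rwa [Nat.card_Ico] at this
  have h3 := h2.trans (Finset.card_le_card h1)
  have h4 : ((n : ℝ) - (n0 + 1)) ≤ (((range n).filter (fun u => ∀ j < h, S^[u + j] y ∉ D)).card : ℝ) := by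
    have h5 : n ≤ ((range n).filter (fun u => ∀ j < h, S^[u + j] y ∉ D)).card + (n0 + 1) := by omega
    have h6 : (n : ℝ) ≤ (((range n).filter (fun u => ∀ j < h, S^[u + j] y ∉ D)).card : ℝ) + (n0 + 1) := by
      exact_mod_cast h5
    linarith
  have h7 : (2 * (n0 : ℝ) + 3) ≤ n := by exact_mod_cast hn2
  linarith

lemma few_bad {S : Y → Y} {ξ : Y → ℕ} {D E : Set Y} {y : Y} (hf : Fresh S ξ y) (hr : RareGaps S D y) :
    FewBad (cy S (lab S ξ D E) y) := by
  classical
  intro C
  have hinf := inf_of_rare hr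
  set c := cy S (lab S ξ D E) y with hc
  rw [Metric.tendsto_atTop]
  intro ε hε
  set ε' : ℝ := ε / (8 * ((C : ℝ) + 24) + 1) with hε'
  have hε'0 : 0 < ε' := by positivity
  obtain ⟨h, hh⟩ := hr ε' hε'0
  obtain ⟨n0, hn0⟩ := eventually_atTop.1 hh
  refine ⟨n0 + C + 64 + 2 * h, fun l hl => ?_⟩
  have hl64 : 64 ≤ l := by omega
  have hl1 : 1 ≤ l := by omega
  have hG0 : 0 < G2 l := lt_of_lt_of_le (by positivity) (G2_ge l)
  set F : ℕ → Prop := fun u => ∀ j < h, S^[u + j] y ∉ D with hF
  set Bq := C * l ^ 8 / G2 l + 1 with hBq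
  set bad : Finset ℕ := (range Bq).filter (fun b => ¬ gbl c l b) with hbad
  have hBq5 : Bq ≤ l ^ 5 := by
    have h1 : C * l ^ 8 / G2 l < l ^ 5 := by
      rw [Nat.div_lt_iff_lt_mul hG0]
      have h2 := G2_ge l
      have h3 : C < l := by omega
      calc C * l ^ 8 < l * l ^ 8 := Nat.mul_lt_mul_of_pos_right h3 (by positivity)
        _ ≤ l ^ 5 * (4 * l ^ 5) := by
            have : l * l ^ 8 ≤ l ^ 10 := by
              calc l * l ^ 8 = l ^ 9 := by ring
                _ ≤ l ^ 10 := Nat.pow_le_pow_right hl1 (by norm_num)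
            calc l * l ^ 8 ≤ l ^ 10 := this
              _ ≤ 4 * l ^ 10 := by omega
              _ = l ^ 5 * (4 * l ^ 5) := by ring
        _ ≤ l ^ 5 * G2 l := Nat.mul_le_mul_left _ h2
    omega
  -- times to blocks
  have h1 : ((range (C * l ^ 8)).filter (fun s => ¬ gbl c l (s / G2 l))).card ≤ bad.card * G2 l := by
    have : ((range (C * l ^ 8)).filter (fun s => ¬ gbl c l (s / G2 l))).card ≤ (bad ×ˢ range (G2 l)).card := by
      apply Finset.card_le_card_of_injOn (fun s => (s / G2 l, s % G2 l))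
      · intro s hs
        rw [Finset.mem_coe, Finset.mem_filter, Finset.mem_range] at hs
        rw [Finset.mem_coe, Finset.mem_product, hbad, Finset.mem_filter, Finset.mem_range, Finset.mem_range]
        refine ⟨⟨?_, hs.2⟩, Nat.mod_lt _ hG0⟩
        have := Nat.div_le_div_right (c := G2 l) hs.1.le
        simp only
        omega
      · intro s _ s' _ hss
        simp only [Prod.mk.injEq] at hss
        rw [← Nat.div_add_mod s (G2 l), ← Nat.div_add_mod s' (G2 l), hss.1, hss.2]
    rwa [Finset.card_product, Finset.card_range] at this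
  -- blocks to gaps
  set K : ℕ → Finset ℕ := fun b => (Finset.Ico ((b + 1) * G2 l) ((b + 2) * G2 l)).filter F with hK
  have h2 : bad.card * G2 l ≤ 8 * ∑ b ∈ bad, (K b).card := by
    rw [Finset.mul_sum, ← smul_eq_mul, ← Finset.sum_const]
    apply Finset.sum_le_sum
    intro b hb
    rw [hbad, Finset.mem_filter, Finset.mem_range] at hb
    have h3 : 2 * h ≤ wl l := le_trans (by omega) (wl_ge l)
    exact bad_block hinf hf l b h hl64 (by omega) h3 hb.2
  have hdisj : (bad : Set ℕ).PairwiseDisjoint K := by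
    intro b _ b' _ hbb
    rw [Function.onFun, Finset.disjoint_left]
    intro u hu hu'
    simp only [hK] at hu hu'
    rw [Finset.mem_filter, Finset.mem_Ico] at hu hu'
    apply hbb
    rcases lt_trichotomy b b' with h3 | h3 | h3
    · have : (b + 2) * G2 l ≤ (b' + 1) * G2 l := Nat.mul_le_mul_right _ (by omega)
      omega
    · exact h3
    · have : (b' + 2) * G2 l ≤ (b + 1) * G2 l := Nat.mul_le_mul_right _ (by omega)
      omega
  have h3 : ∑ b ∈ bad, (K b).card ≤ ((range ((C + 24) * l ^ 8)).filter F).card := by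
    rw [← Finset.card_biUnion hdisj]
    apply Finset.card_le_card
    intro u hu
    rw [Finset.mem_biUnion] at hu
    obtain ⟨b, hb, hu⟩ := hu
    simp only [hK] at hu
    rw [Finset.mem_filter, Finset.mem_Ico] at hu
    rw [hbad, Finset.mem_filter, Finset.mem_range] at hb
    rw [Finset.mem_filter, Finset.mem_range]
    refine ⟨lt_of_lt_of_le hu.1.2 ?_, hu.2⟩
    have h4 : (b + 2) * G2 l ≤ (C * l ^ 8 / G2 l) * G2 l + 2 * G2 l := by
      have : b + 2 ≤ C * l ^ 8 / G2 l + 2 := by omega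
      calc (b + 2) * G2 l ≤ (C * l ^ 8 / G2 l + 2) * G2 l := Nat.mul_le_mul_right _ this
        _ = _ := by ring
    have h5 : (C * l ^ 8 / G2 l) * G2 l ≤ C * l ^ 8 := Nat.div_mul_le_self _ _
    have h6 := G2_le l hl1
    have h7 : l ^ 5 ≤ l ^ 8 := Nat.pow_le_pow_right hl1 (by norm_num)
    have h8 : (C + 24) * l ^ 8 = C * l ^ 8 + 24 * l ^ 8 := by ring
    omega
  have h4 : (((range ((C + 24) * l ^ 8)).filter F).card : ℝ) ≤ ε' * ((C + 24) * l ^ 8 : ℕ) := by
    apply hn0
    have h5 : l ≤ l ^ 8 := Nat.le_self_pow (by norm_num) l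
    nlinarith
  have h5 : ((range (C * l ^ 8)).filter (fun s => ¬ gbl c l (s / G2 l))).card ≤
      8 * ((range ((C + 24) * l ^ 8)).filter F).card := by
    calc _ ≤ bad.card * G2 l := h1
      _ ≤ 8 * ∑ b ∈ bad, (K b).card := h2
      _ ≤ _ := Nat.mul_le_mul_left 8 h3
  have h6 : (((range (C * l ^ 8)).filter (fun s => ¬ gbl c l (s / G2 l))).card : ℝ) ≤
      8 * (((range ((C + 24) * l ^ 8)).filter F).card : ℝ) := by exact_mod_cast h5
  have hl0 : (0:ℝ) < (l : ℝ) ^ 8 := by
    have : (0:ℝ) < l := by exact_mod_cast hl1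
    positivity
  rw [Real.dist_eq, sub_zero, abs_of_nonneg (by positivity), div_lt_iff₀ hl0]
  calc (((range (C * l ^ 8)).filter (fun s => ¬ gbl c l (s / G2 l))).card : ℝ)
      ≤ 8 * (ε' * ((C + 24) * l ^ 8 : ℕ)) := h6.trans (by gcongr)
    _ = (ε' * (8 * ((C : ℝ) + 24))) * (l : ℝ) ^ 8 := by push_cast; ring
    _ < ε * (l : ℝ) ^ 8 := by
        apply mul_lt_mul_of_pos_right _ hl0
        rw [hε', div_mul_eq_mul_div, div_lt_iff₀ (by positivity)]
        have : (0:ℝ) ≤ C := Nat.cast_nonneg C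
        nlinarith

variable [MeasurableSpace Y] {μ : Measure Y} [IsProbabilityMeasure μ] {S : Y → Y}

lemma ae_rare (hS : MeasurePreserving S μ μ) {D : Set Y} (hD : MeasurableSet D)
    (hvis : ∀ᵐ y ∂μ, ∃ n, S^[n] y ∈ D) : ∀ᵐ y ∂μ, RareGaps S D y := by
  classical
  set Z : ℕ → Set Y := fun h => {y | ∀ j < h, S^[j] y ∉ D} with hZ
  have mZ : ∀ h, MeasurableSet (Z h) := by
    intro h
    have : Z h = ⋂ (j : ℕ), ⋂ (_ : j < h), {y | S^[j] y ∈ D}ᶜ := by
      ext y; simp [hZ]
    rw [this]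
    exact MeasurableSet.iInter fun j => MeasurableSet.iInter fun _ => ((hS.measurable.iterate j) hD).compl
  have hanti : Antitone Z := by
    intro h h' hh y hy j hj
    exact hy j (by omega)
  have hnull : μ (⋂ h, Z h) = 0 := by
    rw [measure_eq_zero_iff_ae_notMem]
    filter_upwards [hvis] with y hy hcon
    obtain ⟨n, hn⟩ := hy
    rw [Set.mem_iInter] at hcon
    exact hcon (n + 1) n (by omega) hn
  have hlim : Tendsto (fun h => μ.real (Z h)) atTop (𝓝 0) := by
    have h1 := tendsto_measure_iInter_atTop (μ := μ) (s := Z) (fun h => (mZ h).nullMeasurableSet) hanti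
      ⟨0, measure_ne_top _ _⟩
    rw [hnull] at h1
    have h2 := (ENNReal.tendsto_toReal ENNReal.zero_ne_top).comp h1
    rw [ENNReal.toReal_zero] at h2
    exact h2
  have hint : ∀ h, ∫ y, (Z h).indicator (fun _ => (1:ℝ)) y ∂μ = μ.real (Z h) := by
    intro h
    rw [integral_indicator_const _ (mZ h)]
    simp
  have hsm := Pool.Agent.V8H53.Com.ex_small hS 1 (fun h => (Z h).indicator (fun _ => (1:ℝ)))
    (fun h => measurable_const.indicator (mZ h)) 1
    (fun h y => Set.indicator_nonneg (fun _ _ => zero_le_one) y)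
    (fun h y => Set.indicator_le' (fun _ _ => le_rfl) (fun _ _ => zero_le_one) y)
    (by simp only [hint]; exact hlim)
  filter_upwards [hsm] with y hy ε hε
  obtain ⟨h, hh⟩ := hy (ε / 2) (by positivity)
  obtain ⟨K, hK⟩ := exists_nat_gt (2 / ε)
  refine ⟨h, ?_⟩
  filter_upwards [hh, eventually_ge_atTop (K + 1)] with n hn hn1
  have hn0 : (0:ℝ) < n := by
    have : 0 < n := by omega
    exact_mod_cast this
  have e2 : ∀ k, S^[k] y ∈ Z h ↔ ∀ j < h, S^[k + j] y ∉ D := by
    intro k
    simp only [hZ, Set.mem_ofPred_eq]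
    constructor
    · intro g j hj
      rw [Nat.add_comm, Function.iterate_add_apply]
      exact g j hj
    · intro g j hj
      have := g j hj
      rwa [Nat.add_comm, Function.iterate_add_apply] at this
  have e1 : (((range n).filter (fun u => ∀ j < h, S^[u + j] y ∉ D)).card : ℝ) =
      ∑ k ∈ range n, (Z h).indicator (fun _ => (1:ℝ)) (S^[k] y) := by
    rw [Finset.card_filter]
    push_cast
    refine Finset.sum_congr rfl fun k _ => ?_
    by_cases h3 : S^[k] y ∈ Z h
    · rw [Set.indicator_of_mem h3, if_pos ((e2 k).1 h3)]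
    · rw [Set.indicator_of_notMem h3, if_neg (fun h4 => h3 ((e2 k).2 h4))]
  have e3 : ∑ k ∈ range n, (Z h).indicator (fun _ => (1:ℝ)) (S^[k] y) ≤
      ∑ k ∈ range n, (Z h).indicator (fun _ => (1:ℝ)) (S^[1 * (k + 1)] y) + 1 := by
    have h4 := Finset.sum_range_succ' (fun k => (Z h).indicator (fun _ => (1:ℝ)) (S^[k] y)) n
    have h5 := Finset.sum_range_succ (fun k => (Z h).indicator (fun _ => (1:ℝ)) (S^[k] y)) n
    rw [h5] at h4
    have h6 : (0:ℝ) ≤ (Z h).indicator (fun _ => (1:ℝ)) (S^[n] y) := Set.indicator_nonneg (fun _ _ => zero_le_one) _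
    have h7 : (Z h).indicator (fun _ => (1:ℝ)) (S^[0] y) ≤ 1 :=
      Set.indicator_le' (fun _ _ => le_rfl) (fun _ _ => zero_le_one) _
    simp only [one_mul]
    linarith
  rw [inv_mul_le_iff₀ hn0] at hn
  have h8 : 2 / ε < n := by
    have : (K : ℝ) ≤ n := by
      have : K ≤ n := by omega
      exact_mod_cast this
    linarith
  rw [div_lt_iff₀ hε] at h8
  rw [e1]
  linarith

end Pool.Agent.V8H23.Tow
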