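import Pool.Agent.V8H23.Tow.Scale

/-!
# Almost every outcome, almost every point
-/

set_option autoImplicit false
set_option linter.unusedSectionVars false

open MeasureTheory Filter Topology Set Finset
open scoped ENNReal ComplexConjugate

namespace Pool.Agent.V8H23.Tow

open Pool.Agent.V8H53.Ind
open Pool.Agent.R205.PC (ex)

variable {Y : Type*} [MeasurableSpace Y] (S : Y → Y) (ξ : Y → ℕ)

lemma meas_gbl (hS : Measurable S) (hξ : Measurable ξ) (l b : ℕ) :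
    MeasurableSet {y : Y | gbl (cy S ξ y) l b} := by
  have : {y : Y | gbl (cy S ξ y) l b} = ⋃ T : Finset ℕ, ⋃ (_ : #T = l ^ 4),
      ⋃ (_ : ∀ t ∈ T, (b + 1) * G2 l ≤ t ∧ t < (b + 2) * G2 l), ⋂ (t : ℕ), ⋂ (_ : t ∈ T), ⋂ (s : ℕ),
        ⋂ (_ : s < (l ^ 5 + 1) * G2 l), ⋂ (_ : s ≠ t), {y : Y | cy S ξ y s ≠ cy S ξ y t} := by
    ext y
    simp only [gbl, Set.mem_ofPred_eq, Set.mem_iUnion, Set.mem_iInter, exists_prop]
  rw [this]
  refine MeasurableSet.iUnion fun T => MeasurableSet.iUnion fun _ => MeasurableSet.iUnion fun _ =>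
    MeasurableSet.iInter fun t => MeasurableSet.iInter fun _ => MeasurableSet.iInter fun s =>
      MeasurableSet.iInter fun _ => MeasurableSet.iInter fun _ => ?_
  have h1 : Measurable (fun y : Y => cy S ξ y s) := hξ.comp (hS.iterate s)
  have h2 : Measurable (fun y : Y => cy S ξ y t) := hξ.comp (hS.iterate t)
  exact (measurableSet_eq_fun h1 h2).compl

lemma meas_Xg2 (hS : Measurable S) (hξ : Measurable ξ) (l M R : ℕ) :
    Measurable (fun w : Om × Y => Xv (cy S ξ w.2) (g0 (G2 l) (gbl (cy S ξ w.2) l)) M R w.1) := by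
  unfold Xv
  refine Finset.measurable_fun_sum _ (fun s _ => ?_)
  refine Measurable.ite ?_ ?_ measurable_const
  · exact (meas_bit2 S ξ hS hξ s).inter (meas_cnt2 S ξ hS hξ s (measurableSet_singleton M))
  · unfold g0
    refine Measurable.ite ?_ measurable_const measurable_const
    exact measurable_snd (meas_gbl S ξ hS hξ l (s / G2 l))

lemma meas_Psg2 (hS : Measurable S) (hξ : Measurable ξ) (l : ℕ) (a : ℕ → ℕ) (f : ℕ → Y → ℂ)
    (hf : ∀ j, Measurable (f j)) (r i R n : ℕ) :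
    Measurable (fun w : Om × Y => Psg (cy S ξ w.2) (G2 l) (gbl (cy S ξ w.2) l) a
      (fun j => vy S (f j) w.2) (vy S (f r) w.2) r i R n w.1) := by
  unfold Psg
  exact (meas_Xg2 S ξ hS hξ l _ _).mul (meas_Psi2 S ξ hS hξ a f hf r i R n)

variable (ν : Measure Bool) [IsProbabilityMeasure ν]

theorem ae_thetag (hp : 0 < pr ν) (hq : pr ν < 1) (μ : Measure Y) [IsProbabilityMeasure μ]
    (hS : Measurable S) (hξ : Measurable ξ)
    (a : ℕ → ℕ) (f : ℕ → Y → ℂ) (hf : ∀ j, Measurable (f j)) (C : ℝ) (hfC : ∀ j y, ‖f j y‖ ≤ C)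
    (r i : ℕ) (ha : ∀ j < r, a j + 1 ≤ a r) (har : 1 ≤ a r) :
    ∀ᵐ θ ∂(PP ν), ∀ᵐ y ∂μ, Tendsto (fun l : ℕ => (1 / ((l ^ 8 : ℕ) : ℂ)) *
      ∑ n ∈ range (l ^ 8), Psg (cy S ξ y) (G2 l) (gbl (cy S ξ y) l) a
        (fun j => vy S (f j) y) (vy S (f r) y) r i (R2 l) n θ)
      atTop (𝓝 0) := by
  by_cases hne : Nonempty Y
  swap
  · filter_upwards with θ
    filter_upwards with y
    exact absurd ⟨y⟩ hne
  obtain ⟨y0⟩ := hne
  have hC0 : 0 ≤ C := (norm_nonneg _).trans (hfC 0 y0)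
  have hset : MeasurableSet {w : Om × Y | Tendsto (fun l : ℕ => (1 / ((l ^ 8 : ℕ) : ℂ)) *
      ∑ n ∈ range (l ^ 8), Psg (cy S ξ w.2) (G2 l) (gbl (cy S ξ w.2) l) a
        (fun j => vy S (f j) w.2) (vy S (f r) w.2) r i (R2 l) n w.1)
      atTop (𝓝 0)} :=
    measurableSet_tendsto (𝓝 0) fun l =>
      (Finset.measurable_fun_sum _ fun n _ => meas_Psg2 S ξ hS hξ l a f hf r i _ n).const_mul _
  rw [Measure.ae_ae_comm hset]
  filter_upwards with y
  exact conv_powg (cy S ξ y) ν hp hq a (fun j => vy S (f j) y) (vy S (f r) y) C hC0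
    (fun j s => hfC j _) (fun s => hfC r _) r i ha har

/-- all exponents and a countable family of functions -/
theorem ae_theta_allg (hp : 0 < pr ν) (hq : pr ν < 1) (μ : Measure Y) [IsProbabilityMeasure μ]
    (hS : Measurable S) (hξ : Measurable ξ)
    (D : ℕ → ℕ → Y → ℂ) (hD : ∀ u M, Measurable (D u M)) (hDb : ∀ u M y, ‖D u M y‖ ≤ M) :
    ∀ᵐ θ ∂(PP ν), ∀ (m : ℕ) (a : Fin m → ℕ) (u : Fin m → ℕ) (M r i : ℕ), StrictMono a →
      (∀ j, 0 < a j) → r < m →
      ∀ᵐ y ∂μ, Tendsto (fun l : ℕ => (1 / ((l ^ 8 : ℕ) : ℂ)) *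
      ∑ n ∈ range (l ^ 8), Psg (cy S ξ y) (G2 l) (gbl (cy S ξ y) l) (ex a)
        (fun j => vy S (D (ex u j) M) y)
        (vy S (D (ex u r) M) y) r i (R2 l) n θ)
      atTop (𝓝 0) := by
  rw [ae_all_iff]; intro m
  rw [ae_all_iff]; intro a
  rw [ae_all_iff]; intro u
  rw [ae_all_iff]; intro M
  rw [ae_all_iff]; intro r
  rw [ae_all_iff]; intro i
  by_cases h : StrictMono a ∧ (∀ j, 0 < a j) ∧ r < m
  · obtain ⟨h1, h2, h3⟩ := h
    have hex : ∀ j (h : j < m), ex a j = a ⟨j, h⟩ := fun j h => by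
      rw [ex, dif_pos h]
    have hθ := ae_thetag S ξ ν hp hq μ hS hξ (ex a)
      (fun j => D (ex u j) M) (fun j => hD _ _) M (fun j y => hDb _ _ y) r i
      (fun j hj => by
        rw [hex j (by omega), hex r h3]
        exact h1 (by exact hj))
      (by rw [hex r h3]; exact h2 _)
    filter_upwards [hθ] with θ hθ _ _ _
    exact hθ
  · filter_upwards with θ g1 g2 g3
    exact absurd ⟨g1, g2, g3⟩ h

end Pool.Agent.V8H23.Tow
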