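import Pool.Agent.V8H23.Tow.Conv
import Pool.Agent.V8H53.Com.Main

/-!
# Limits of the averages for a measure preserving map
-/

set_option autoImplicit false
set_option linter.unusedSectionVars false

open MeasureTheory Filter Topology Set Finset
open scoped ENNReal ComplexConjugate

namespace Pool.Agent.V8H23.Tow

open Pool.Agent.V8H53.Ind Pool.Agent.V8H53.Com
open Pool.Agent.R205.PC (ex fx dd dd_meas dd_bound dd_approx prod_sub_le)

variable {X : Type*} [MeasurableSpace X]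

/-- convergence for one family of functions -/
lemma conv_one {lam : Measure X} [IsProbabilityMeasure lam] {T : X → X} (hT : MeasurePreserving T lam lam)
    (m : ℕ) (a : ℕ → ℕ) (F : ℕ → X → ℂ) (hF : ∀ j, Measurable (F j)) (C : ℝ) (hC0 : 0 ≤ C)
    (hC : ∀ j x, ‖F j x‖ ≤ C)
    (h1 : ∀ r < m, ∀ i : ℕ, ∀ᵐ x ∂lam, Tendsto (fun N : ℕ => (N : ℂ)⁻¹ * ∑ n ∈ range N,
      (∏ j ∈ range r, F j (T^[a j * (n + 1)] x)) *
        (F r (T^[a r * (n + 1) + i] x) - F r (T^[a r * (n + 1) + i + 1] x))) atTop (𝓝 0)) :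
    ∀ᵐ x ∂lam, Tendsto (fun N : ℕ => (N : ℂ)⁻¹ * ∑ n ∈ range N,
      (∏ j ∈ range m, F j (T^[a j * (n + 1)] x) -
        ∏ j ∈ range m, ce lam T C (F j) (T^[a j * (n + 1)] x))) atTop (𝓝 0) := by
  have h1' : ∀ᵐ x ∂lam, ∀ r i : ℕ, r < m → Tendsto (fun N : ℕ => (N : ℂ)⁻¹ * ∑ n ∈ range N,
      (∏ j ∈ range r, F j (T^[a j * (n + 1)] x)) *
        (F r (T^[a r * (n + 1) + i] x) - F r (T^[a r * (n + 1) + i + 1] x))) atTop (𝓝 0) := by
    rw [ae_all_iff]; intro r
    rw [ae_all_iff]; intro i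
    by_cases hr : r < m
    · filter_upwards [h1 r hr i] with x hx _
      exact hx
    · filter_upwards with x h
      exact absurd h hr
  have h2' : ∀ᵐ x ∂lam, ∀ r : ℕ, ∀ ε : ℝ, 0 < ε → ∃ L : ℕ, ∀ᶠ N : ℕ in atTop, (N : ℝ)⁻¹ * ∑ n ∈ range N,
      ‖((L + 1 : ℕ) : ℂ)⁻¹ * ∑ i ∈ range (L + 1), F r (T^[i] (T^[a r * (n + 1)] x)) -
        ce lam T C (F r) (T^[a r * (n + 1)] x)‖ ≤ ε := by
    rw [ae_all_iff]; intro r
    refine ex_small hT (a r) (fun L x => ‖((L + 1 : ℕ) : ℂ)⁻¹ * ∑ i ∈ range (L + 1), F r (T^[i] x) -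
        ce lam T C (F r) x‖) ?_ (C + C) (fun _ _ => norm_nonneg _) ?_ (mean_tendsto hT (F r) (hF r) C hC0 (hC r))
    · intro L
      exact ((((Finset.measurable_fun_sum _ fun i _ => (hF r).comp (hT.measurable.iterate i)).const_mul _)).sub
        (ce_meas lam T C (F r))).norm
    · intro L x
      refine (norm_sub_le _ _).trans (add_le_add ?_ (ce_bound lam T C hC0 (F r) x))
      rw [norm_mul, norm_inv, Complex.norm_natCast]
      have h1 : ‖∑ i ∈ range (L + 1), F r (T^[i] x)‖ ≤ ((L + 1 : ℕ) : ℝ) * C := by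
        refine (norm_sum_le_of_le _ fun i _ => hC _ _).trans ?_
        rw [Finset.sum_const, Finset.card_range, nsmul_eq_mul]
      have h2 : (0:ℝ) < ((L + 1 : ℕ) : ℝ) := by positivity
      rw [inv_mul_le_iff₀ h2]
      exact h1
  filter_upwards [h1', h2'] with x g1 g2
  have hinv : ∀ j k, ce lam T C (F j) (T^[k] x) = ce lam T C (F j) x := by
    intro j k
    induction k with
    | zero => rfl
    | succ k ih => rw [Function.iterate_succ_apply', ce_inv, ih]
  refine seq2 m a (fun j k => ce lam T C (F j) (T^[k] x)) (fun j i k => F j (T^[i] (T^[k] x))) C hC0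
    (fun j k => ce_bound lam T C hC0 _ _) (fun j i k => hC _ _) ?_ (fun r _ => g2 r)
  intro r hr i
  have g3 := (g1 r i hr).const_mul (∏ j ∈ Finset.Ico (r + 1) m, ce lam T C (F j) x)
  rw [mul_zero] at g3
  refine g3.congr fun N => ?_
  rw [mul_left_comm, Finset.mul_sum]
  congr 1
  refine Finset.sum_congr rfl fun n _ => ?_
  simp only [hinv, Function.iterate_zero, id]
  rw [← Function.iterate_add_apply, ← Function.iterate_add_apply, mul_assoc]
  rw [Nat.add_comm i, show i + 1 + a r * (n + 1) = a r * (n + 1) + i + 1 by ring]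

/-- closure under approximation -/
theorem closure_gen {lam : Measure X} [IsProbabilityMeasure lam]
    {T : X → X} (hT : MeasurePreserving T lam lam) (m : ℕ) (a : ℕ → ℕ)
    (Dn : ℕ → X → ℂ) (hDm : ∀ u, Measurable (Dn u)) (M : ℕ) (hM1 : (1:ℝ) ≤ M) (hDb : ∀ u x, ‖Dn u x‖ ≤ M)
    (f : ℕ → X → ℂ) (hf : ∀ j, Measurable (f j)) (hfM : ∀ j x, ‖f j x‖ ≤ M)
    (happ : ∀ (k : ℕ) (j : Fin m), ∃ u, ∫ z, ‖f j z - Dn u z‖ ∂lam ≤ 1 / ((k : ℝ) + 1))
    (hdd : ∀ (u : Fin m → ℕ), ∀ᵐ x ∂lam, Tendsto (fun N : ℕ => (N : ℂ)⁻¹ * ∑ n ∈ range N,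
      (∏ j ∈ range m, Dn (ex u j) (T^[a j * (n + 1)] x) -
        ∏ j ∈ range m, ce lam T M (Dn (ex u j)) (T^[a j * (n + 1)] x))) atTop (𝓝 0)) :
    ∀ᵐ x ∂lam, Tendsto (fun N : ℕ => (N : ℂ)⁻¹ * ∑ n ∈ range N,
      (∏ j ∈ range m, f j (T^[a j * (n + 1)] x) -
        ∏ j ∈ range m, (lam[f j | MeasurableSpace.invariants T]) (T^[a j * (n + 1)] x))) atTop (𝓝 0) := by
  have hM0 : (0:ℝ) ≤ M := by linarith
  choose u hu using happ
  set D : ℕ → ℕ → X → ℂ := fun k j => Dn (ex (u k) j) with hD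
  -- the two kinds of errors
  set G : ℕ × Bool → ℕ → X → ℝ := fun i k x => if i.2 = true then
    (if i.1 < m then ‖f i.1 x - D k i.1 x‖ else 0) else
    (if i.1 < m then ‖ce lam T M (f i.1) x - ce lam T M (D k i.1) x‖ else 0) with hG
  have hu' : ∀ k, ∀ j < m, ∫ z, ‖f j z - D k j z‖ ∂lam ≤ 1 / ((k : ℝ) + 1) := by
    intro k j hj
    have e1 : ex (u k) j = u k ⟨j, hj⟩ := by rw [ex, dif_pos hj]
    rw [hD]; simp only; rw [e1]
    exact hu k ⟨j, hj⟩
  have mG : ∀ i k, Measurable (G i k) := by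
    intro i k
    rw [hG]
    simp only
    split_ifs
    · exact ((hf _).sub (hDm _)).norm
    · exact measurable_const
    · exact ((ce_meas lam T M _).sub (ce_meas lam T M _)).norm
    · exact measurable_const
  have G0 : ∀ i k x, 0 ≤ G i k x := by
    intro i k x
    rw [hG]
    simp only
    split_ifs <;> first | exact norm_nonneg _ | exact le_rfl
  have GB : ∀ i k x, G i k x ≤ M + M := by
    intro i k x
    rw [hG]
    simp only
    split_ifs
    · exact (norm_sub_le _ _).trans (add_le_add (hfM _ _) (hDb _ _))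
    · linarith
    · exact (norm_sub_le _ _).trans (add_le_add (ce_bound lam T M hM0 _ _) (ce_bound lam T M hM0 _ _))
    · linarith
  have Gle : ∀ i k, ∫ x, G i k x ∂lam ≤ 1 / ((k : ℝ) + 1) := by
    intro i k
    have hpos : (0:ℝ) ≤ 1 / ((k : ℝ) + 1) := by positivity
    by_cases hb : i.2 = true
    · by_cases hi : i.1 < m
      · have e1 : G i k = fun x => ‖f i.1 x - D k i.1 x‖ := by
          ext x; rw [hG]; simp only; rw [if_pos hb, if_pos hi]
        rw [e1]; exact hu' k i.1 hi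
      · have e1 : G i k = fun x => 0 := by
          ext x; rw [hG]; simp only; rw [if_pos hb, if_neg hi]
        rw [e1]; simpa using hpos
    · by_cases hi : i.1 < m
      · have e1 : G i k = fun x => ‖ce lam T M (f i.1) x - ce lam T M (D k i.1) x‖ := by
          ext x; rw [hG]; simp only; rw [if_neg hb, if_pos hi]
        rw [e1]
        exact (ce_diff lam T M (f i.1) (D k i.1) (hf _) (hDm _) (hfM _) (hDb _)).trans (hu' k i.1 hi)
      · have e1 : G i k = fun x => 0 := by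
          ext x; rw [hG]; simp only; rw [if_neg hb, if_neg hi]
        rw [e1]; simpa using hpos
  have Glim : ∀ i, Tendsto (fun k => ∫ x, G i k x ∂lam) atTop (𝓝 0) := fun i =>
    squeeze_zero (fun k => integral_nonneg fun x => G0 i k x) (fun k => Gle i k) tendsto_one_div_add_atTop_nhds_zero_nat
  have hsm := ex_small_fam (lam := lam) (Finset.range m ×ˢ (Finset.univ : Finset Bool))
    (fun _ => T) (fun _ => hT) (fun i => a i.1) G mG (M + M) G0 GB Glim
  have hall : ∀ᵐ x ∂lam, ∀ k : ℕ, Tendsto (fun N : ℕ => (N : ℂ)⁻¹ * ∑ n ∈ range N,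
      (∏ j ∈ range m, D k j (T^[a j * (n + 1)] x) -
        ∏ j ∈ range m, ce lam T M (D k j) (T^[a j * (n + 1)] x))) atTop (𝓝 0) := by
    rw [ae_all_iff]; intro k
    exact hdd (u k)
  have hce : ∀ᵐ x ∂lam, ∀ j t : ℕ, ce lam T M (f j) (T^[t] x) = (lam[f j | MeasurableSpace.invariants T]) (T^[t] x) := by
    rw [ae_all_iff]; intro j
    rw [ae_all_iff]; intro t
    exact (hT.iterate t).quasiMeasurePreserving.ae (ce_ae lam T M (f j) (hfM j))
  filter_upwards [hsm, hall, hce] with x h1 h2 h3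
  simp only [← h3]
  rw [Metric.tendsto_atTop]
  intro ε hε
  set W : ℝ := (M : ℝ) ^ m * (2 * m + 1) with hW
  have hW0 : 0 < W := by positivity
  obtain ⟨k, hk⟩ := h1 (ε / (2 * W)) (by positivity)
  obtain ⟨N1, hN1⟩ := eventually_atTop.1 hk
  obtain ⟨N2, hN2⟩ := (Metric.tendsto_atTop.1 (h2 k)) (ε / 2) (by positivity)
  refine ⟨max N1 N2, fun N hN => ?_⟩
  have g1 := hN1 N (le_trans (le_max_left _ _) hN)
  have g2 := hN2 N (le_trans (le_max_right _ _) hN)
  have g1a : ∀ j ∈ range m, (N : ℝ)⁻¹ * ∑ n ∈ range N, ‖f j (T^[a j * (n + 1)] x) - D k j (T^[a j * (n + 1)] x)‖ ≤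
      ε / (2 * W) := by
    intro j hj
    have := g1 (j, true) (Finset.mem_product.2 ⟨hj, Finset.mem_univ _⟩)
    simp only [hG, if_true] at this
    rw [Finset.mem_range] at hj
    simpa [hj] using this
  have g1b : ∀ j ∈ range m, (N : ℝ)⁻¹ * ∑ n ∈ range N, ‖ce lam T M (f j) (T^[a j * (n + 1)] x) -
      ce lam T M (D k j) (T^[a j * (n + 1)] x)‖ ≤ ε / (2 * W) := by
    intro j hj
    have := g1 (j, false) (Finset.mem_product.2 ⟨hj, Finset.mem_univ _⟩)
    rw [Finset.mem_range] at hj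
    simpa [hG, hj] using this
  rw [dist_zero_right] at g2 ⊢
  set b1 := (N : ℂ)⁻¹ * ∑ n ∈ range N, (∏ j ∈ range m, f j (T^[a j * (n + 1)] x) -
        ∏ j ∈ range m, ce lam T M (f j) (T^[a j * (n + 1)] x)) with hb1
  set b2 := (N : ℂ)⁻¹ * ∑ n ∈ range N, (∏ j ∈ range m, D k j (T^[a j * (n + 1)] x) -
        ∏ j ∈ range m, ce lam T M (D k j) (T^[a j * (n + 1)] x)) with hb2
  have hdiff : ‖b1 - b2‖ ≤ (M : ℝ) ^ m * ∑ j ∈ range m, ε / (2 * W) + (M : ℝ) ^ m * ∑ j ∈ range m, ε / (2 * W) := by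
    rw [hb1, hb2, ← mul_sub, ← Finset.sum_sub_distrib, norm_mul, norm_inv, Complex.norm_natCast]
    calc (N : ℝ)⁻¹ * ‖∑ n ∈ range N, ((∏ j ∈ range m, f j (T^[a j * (n + 1)] x) -
          ∏ j ∈ range m, ce lam T M (f j) (T^[a j * (n + 1)] x)) -
          (∏ j ∈ range m, D k j (T^[a j * (n + 1)] x) -
            ∏ j ∈ range m, ce lam T M (D k j) (T^[a j * (n + 1)] x)))‖
        ≤ (N : ℝ)⁻¹ * ∑ n ∈ range N, ((M : ℝ) ^ m * ∑ j ∈ range m,
            ‖f j (T^[a j * (n + 1)] x) - D k j (T^[a j * (n + 1)] x)‖ +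
          (M : ℝ) ^ m * ∑ j ∈ range m, ‖ce lam T M (f j) (T^[a j * (n + 1)] x) -
            ce lam T M (D k j) (T^[a j * (n + 1)] x)‖) := by
          apply mul_le_mul_of_nonneg_left _ (by positivity)
          refine norm_sum_le_of_le _ fun n _ => ?_
          have e1 : (∏ j ∈ range m, f j (T^[a j * (n + 1)] x) -
              ∏ j ∈ range m, ce lam T M (f j) (T^[a j * (n + 1)] x)) -
              (∏ j ∈ range m, D k j (T^[a j * (n + 1)] x) -
                ∏ j ∈ range m, ce lam T M (D k j) (T^[a j * (n + 1)] x)) =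
              (∏ j ∈ range m, f j (T^[a j * (n + 1)] x) - ∏ j ∈ range m, D k j (T^[a j * (n + 1)] x)) -
              (∏ j ∈ range m, ce lam T M (f j) (T^[a j * (n + 1)] x) -
                ∏ j ∈ range m, ce lam T M (D k j) (T^[a j * (n + 1)] x)) := by ring
          rw [e1]
          refine (norm_sub_le _ _).trans (add_le_add ?_ ?_)
          · exact prod_sub_le (M : ℝ) hM1 m (fun j => f j (T^[a j * (n + 1)] x))
              (fun j => D k j (T^[a j * (n + 1)] x)) (fun j => hfM _ _) (fun j => hDb _ _)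
          · exact prod_sub_le (M : ℝ) hM1 m (fun j => ce lam T M (f j) (T^[a j * (n + 1)] x))
              (fun j => ce lam T M (D k j) (T^[a j * (n + 1)] x)) (fun j => ce_bound lam T M hM0 _ _)
              (fun j => ce_bound lam T M hM0 _ _)
      _ = (M : ℝ) ^ m * ∑ j ∈ range m, (N : ℝ)⁻¹ * ∑ n ∈ range N,
            ‖f j (T^[a j * (n + 1)] x) - D k j (T^[a j * (n + 1)] x)‖ +
          (M : ℝ) ^ m * ∑ j ∈ range m, (N : ℝ)⁻¹ * ∑ n ∈ range N,
            ‖ce lam T M (f j) (T^[a j * (n + 1)] x) - ce lam T M (D k j) (T^[a j * (n + 1)] x)‖ := by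
          rw [Finset.sum_add_distrib, mul_add, ← Finset.mul_sum, ← Finset.mul_sum, Finset.sum_comm,
            mul_left_comm, Finset.mul_sum]
          congr 1
          rw [Finset.sum_comm, mul_left_comm, Finset.mul_sum]
      _ ≤ _ := by
          apply add_le_add
          · exact mul_le_mul_of_nonneg_left (Finset.sum_le_sum g1a) (by positivity)
          · exact mul_le_mul_of_nonneg_left (Finset.sum_le_sum g1b) (by positivity)
  have hle : (M : ℝ) ^ m * ∑ j ∈ range m, ε / (2 * W) + (M : ℝ) ^ m * ∑ j ∈ range m, ε / (2 * W) < ε / 2 := by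
    rw [Finset.sum_const, Finset.card_range, nsmul_eq_mul]
    have h5 : (M : ℝ) ^ m * (m * (ε / (2 * W))) + (M : ℝ) ^ m * (m * (ε / (2 * W))) =
        ((M : ℝ) ^ m * (2 * m)) * ε / (2 * W) := by ring
    rw [h5, div_lt_iff₀ (by positivity)]
    have h6 : (0:ℝ) < (M : ℝ) ^ m := by positivity
    have h7 : (M : ℝ) ^ m * (2 * m) < W := by rw [hW]; nlinarith
    nlinarith
  calc ‖b1‖ = ‖(b1 - b2) + b2‖ := by congr 1; ring
    _ ≤ ‖b1 - b2‖ + ‖b2‖ := norm_add_le _ _
    _ < ε := by linarith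


end Pool.Agent.V8H23.Tow
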