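import Pool.Agent.V8H23.Tow.Conv

/-!
# Labels on a set of positive measure
-/

set_option autoImplicit false
set_option linter.unusedSectionVars false

open MeasureTheory Filter Topology Set Finset
open scoped ENNReal ComplexConjugate

namespace Pool.Agent.V8H23.Tow

open Pool.Agent.V8H53.Ind
open Pool.Agent.R205.PC (Lk Fresh)

variable {Y : Type*}

/-- the code of the list of the labels up to the next visit -/
noncomputable def code (S : Y → Y) (ξ : Y → ℕ) (D : Set Y) (y : Y) : ℕ :=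
  Encodable.encode ((List.range (ret S D y)).map (fun j => ξ (S^[j] y)))

open Classical in
/-- the labels on `D`; the set `E` has the label `0`, the remaining points have the label `1` -/
noncomputable def lab (S : Y → Y) (ξ : Y → ℕ) (D E : Set Y) (y : Y) : ℕ :=
  if y ∈ D then 2 + code S ξ D y else if y ∈ E then 0 else 1

lemma code_eq {S : Y → Y} {ξ : Y → ℕ} {D : Set Y} {y y' : Y} (h : code S ξ D y = code S ξ D y') :
    ∀ j < ret S D y, ξ (S^[j] y) = ξ (S^[j] y') := by
  have h1 := Encodable.encode_injective h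
  have hlen : ret S D y = ret S D y' := by
    have := congrArg List.length h1
    simpa using this
  intro j hj
  rw [← hlen] at h1
  have h2 := List.map_inj_left.1 h1 j (List.mem_range.2 hj)
  exact h2

/-- transport of freshness -/
lemma fresh_lab {S : Y → Y} {ξ : Y → ℕ} {D E : Set Y} {y : Y} (hinf : ∀ n, ∃ u, n < u ∧ S^[u] y ∈ D)
    {t t0 L : ℕ} (htt : t ≤ t0) (ht : S^[t] y ∈ D) (hno : ∀ u, t < u → u ≤ t0 → S^[u] y ∉ D)
    (hf : ∀ s, s ≠ t0 → s ≤ t0 + L → t0 ≤ s + L → ξ (S^[s] y) ≠ ξ (S^[t0] y)) :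
    ∀ s, s ≠ t → s ≤ t + L → t ≤ s + L → cy S (lab S ξ D E) y s ≠ cy S (lab S ξ D E) y t := by
  intro s hst h1 h2 heq
  unfold cy lab at heq
  rw [if_pos ht] at heq
  have hsD : S^[s] y ∈ D := by
    by_contra hcon
    rw [if_neg hcon] at heq
    split_ifs at heq <;> omega
  rw [if_pos hsD] at heq
  have hcode : code S ξ D (S^[t] y) = code S ξ D (S^[s] y) := by omega
  have hret : t0 - t < ret S D (S^[t] y) := by
    obtain ⟨u, hu1, hu2⟩ := hinf t0
    have hne : ({s : ℕ | 0 < s ∧ S^[s] (S^[t] y) ∈ D} : Set ℕ).Nonempty := by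
      refine ⟨u - t, by omega, ?_⟩
      rw [← Function.iterate_add_apply, show u - t + t = u by omega]
      exact hu2
    have hmem := Nat.sInf_mem hne
    obtain ⟨h3, h4⟩ := hmem
    rw [← Function.iterate_add_apply] at h4
    have h5 : ret S D (S^[t] y) = sInf {s : ℕ | 0 < s ∧ S^[s] (S^[t] y) ∈ D} := rfl
    rw [← h5] at h3 h4
    by_contra hcon
    exact hno _ (by omega) (by omega) h4
  have h6 := code_eq hcode (t0 - t) hret
  rw [← Function.iterate_add_apply, ← Function.iterate_add_apply, show t0 - t + t = t0 by omega] at h6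
  exact hf (t0 - t + s) (by omega) (by omega) (by omega) h6.symm

/-- long windows with a visit in their first half contain a fresh time -/
lemma window {S : Y → Y} {ξ : Y → ℕ} {D E : Set Y} {y : Y} (hinf : ∀ n, ∃ u, n < u ∧ S^[u] y ∈ D)
    (hf : Fresh S ξ y) (k p : ℕ) (hv : ∃ u, p ≤ u ∧ u < p + (2 * 2 ^ k + 1) ∧ S^[u] y ∈ D) :
    ∃ t, p ≤ t ∧ t < p + 2 * (2 * 2 ^ k + 1) ∧
      ∀ s, s ≠ t → s ≤ t + Lk k → t ≤ s + Lk k → cy S (lab S ξ D E) y s ≠ cy S (lab S ξ D E) y t := by
  classical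
  obtain ⟨u, hu1, hu2, hu3⟩ := hv
  obtain ⟨t0, ht1, ht2, ht3⟩ := hf k (p + (2 * 2 ^ k + 1))
  set t := Nat.findGreatest (fun v => S^[v] y ∈ D) t0 with ht
  have h1 : S^[t] y ∈ D := Nat.findGreatest_spec (P := fun v => S^[v] y ∈ D) (show u ≤ t0 by omega) hu3
  have h2 : u ≤ t := Nat.le_findGreatest (P := fun v => S^[v] y ∈ D) (by omega) hu3
  have h3 : t ≤ t0 := Nat.findGreatest_le t0
  refine ⟨t, by omega, by omega, ?_⟩
  apply fresh_lab hinf h3 h1 _ ht3
  intro v hv1 hv2
  exact Nat.findGreatest_is_greatest (P := fun v => S^[v] y ∈ D) hv1 hv2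

lemma radius (l : ℕ) (hl : 64 ≤ l) : (l ^ 5 + 1) * G2 l ≤ Lk (Nat.log 2 l) := by
  set k := Nat.log 2 l with hk
  have hk2 : l < 2 ^ (k + 1) := Nat.lt_pow_succ_log_self (by norm_num) l
  have hk6 : 6 ≤ k := by
    rw [hk]
    apply Nat.le_log_of_pow_le (by norm_num)
    norm_num; exact hl
  have h2 : (l ^ 5 + 1) * G2 l ≤ 32 * l ^ 10 := by
    have h3 : 1 ≤ l ^ 5 := Nat.one_le_pow _ _ (by omega)
    calc (l ^ 5 + 1) * G2 l ≤ (l ^ 5 + l ^ 5) * (12 * l ^ 5) := by
          gcongr
          exact G2_le l (by omega)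
      _ = 24 * l ^ 10 := by ring
      _ ≤ 32 * l ^ 10 := by omega
  refine h2.trans ?_
  have h4 : 32 * l ^ 10 ≤ 2 ^ (5 + 10 * (k + 1)) := by
    rw [pow_add, pow_mul', show (2:ℕ)^5 = 32 by norm_num]
    apply Nat.mul_le_mul_left
    exact Nat.pow_le_pow_left hk2.le 10
  refine h4.trans ?_
  unfold Lk
  rw [show (4:ℕ) = 2 ^ 2 by norm_num, ← pow_mul]
  apply Nat.pow_le_pow_right (by norm_num)
  nlinarith

open Classical in
/-- a bad block contains many long gaps -/
lemma bad_block {S : Y → Y} {ξ : Y → ℕ} {D E : Set Y} {y : Y} (hinf : ∀ n, ∃ u, n < u ∧ S^[u] y ∈ D)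
    (hf : Fresh S ξ y) (l b h : ℕ) (hl : 64 ≤ l) (hb : b < l ^ 5) (hh : 2 * h ≤ wl l)
    (hbad : ¬ gbl (cy S (lab S ξ D E) y) l b) :
    G2 l ≤ 8 * ((Finset.Ico ((b + 1) * G2 l) ((b + 2) * G2 l)).filter
      (fun u => ∀ j < h, S^[u + j] y ∉ D)).card := by
  set c := cy S (lab S ξ D E) y with hc
  set w := wl l with hw
  set k := Nat.log 2 l with hk
  have hwk : w = 2 * 2 ^ k + 1 := rfl
  have hG : G2 l = 4 * l ^ 4 * w := rfl
  set p : ℕ → ℕ := fun i => (b + 1) * G2 l + i * (2 * w) with hp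
  set I : Finset ℕ := (range (2 * l ^ 4)).filter (fun i => ∃ u, p i ≤ u ∧ u < p i + w ∧ S^[u] y ∈ D) with hI
  have hb2 : (b + 2) * G2 l = (b + 1) * G2 l + G2 l := by ring
  have hpi : ∀ i < 2 * l ^ 4, p i + 2 * w ≤ (b + 2) * G2 l := by
    intro i hi
    have h1 : (i + 1) * (2 * w) ≤ (2 * l ^ 4) * (2 * w) := Nat.mul_le_mul_right _ hi
    have h2 : (2 * l ^ 4) * (2 * w) = G2 l := by rw [hG]; ring
    have h3 : (i + 1) * (2 * w) = i * (2 * w) + 2 * w := by ring
    simp only [hp]
    omega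
  have hIcard : I.card < l ^ 4 := by
    by_contra hcon
    rw [not_lt] at hcon
    obtain ⟨I', hI'1, hI'2⟩ := Finset.exists_subset_card_eq hcon
    have hch : ∀ i ∈ I', ∃ t, p i ≤ t ∧ t < p i + 2 * w ∧
        ∀ s, s ≠ t → s ≤ t + Lk k → t ≤ s + Lk k → c s ≠ c t := by
      intro i hi
      have := hI'1 hi
      rw [hI, Finset.mem_filter] at this
      exact window hinf hf k (p i) this.2
    choose! t ht1 ht2 ht3 using hch
    apply hbad
    refine ⟨I'.image t, ?_, ?_, ?_⟩
    · rw [Finset.card_image_of_injOn, hI'2]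
      intro i hi i' hi' hii
      rw [Finset.mem_coe] at hi hi'
      have a1 := ht1 i hi
      have a2 := ht2 i hi
      have a3 := ht1 i' hi'
      have a4 := ht2 i' hi'
      rcases lt_trichotomy i i' with h1 | h1 | h1
      · have h2 : (i + 1) * (2 * w) ≤ i' * (2 * w) := Nat.mul_le_mul_right _ h1
        have h3 : (i + 1) * (2 * w) = i * (2 * w) + 2 * w := by ring
        simp only [hp] at a1 a2 a3 a4
        omega
      · exact h1
      · have h2 : (i' + 1) * (2 * w) ≤ i * (2 * w) := Nat.mul_le_mul_right _ h1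
        have h3 : (i' + 1) * (2 * w) = i' * (2 * w) + 2 * w := by ring
        simp only [hp] at a1 a2 a3 a4
        omega
    · intro s hs
      obtain ⟨i, hi, rfl⟩ := Finset.mem_image.1 hs
      have h1 := hI'1 hi
      rw [hI, Finset.mem_filter, Finset.mem_range] at h1
      have h2 := hpi i h1.1
      have a1 := ht1 i hi
      have a2 := ht2 i hi
      have h3 : (b + 1) * G2 l ≤ p i := Nat.le_add_right _ _
      exact ⟨by omega, by omega⟩
    · intro s hs u hu hus
      obtain ⟨i, hi, rfl⟩ := Finset.mem_image.1 hs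
      have h1 := hI'1 hi
      rw [hI, Finset.mem_filter, Finset.mem_range] at h1
      have h2 := hpi i h1.1
      have a2 := ht2 i hi
      have h3 : (b + 2) * G2 l ≤ (l ^ 5 + 1) * G2 l := Nat.mul_le_mul_right _ (by omega)
      have h4 := radius l hl
      rw [← hk] at h4
      exact ht3 i hi u hus (by omega) (by omega)
  -- the empty windows
  set J : Finset ℕ := (range (2 * l ^ 4)) \ I with hJ
  have hJcard : l ^ 4 ≤ J.card := by
    have h1 : J.card = 2 * l ^ 4 - I.card := by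
      rw [hJ, Finset.card_sdiff_of_subset (Finset.filter_subset _ _), Finset.card_range]
    omega
  have hinj : (J ×ˢ range (w - h + 1)).card ≤ ((Finset.Ico ((b + 1) * G2 l) ((b + 2) * G2 l)).filter
      (fun u => ∀ j < h, S^[u + j] y ∉ D)).card := by
    apply Finset.card_le_card_of_injOn (fun q : ℕ × ℕ => p q.1 + q.2)
    · rintro ⟨i, v⟩ hiv
      rw [Finset.mem_coe, Finset.mem_product, hJ, Finset.mem_sdiff, Finset.mem_range, Finset.mem_range] at hiv
      obtain ⟨⟨h1, h2⟩, h3⟩ := hiv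
      simp only at h1 h2 h3
      rw [Finset.mem_coe, Finset.mem_filter, Finset.mem_Ico]
      have h4 := hpi i h1
      have h5 : (b + 1) * G2 l ≤ p i := Nat.le_add_right _ _
      refine ⟨⟨by simp only; omega, by simp only; omega⟩, ?_⟩
      intro j hj hD
      apply h2
      rw [hI, Finset.mem_filter, Finset.mem_range]
      exact ⟨h1, p i + v + j, by omega, by omega, hD⟩
    · rintro ⟨i, v⟩ hiv ⟨i', v'⟩ hiv' heq
      rw [Finset.mem_coe, Finset.mem_product, Finset.mem_range] at hiv hiv'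
      simp only [hp] at heq hiv hiv'
      have h1 := hiv.2
      have h2 := hiv'.2
      rcases lt_trichotomy i i' with h3 | h3 | h3
      · have h4 : (i + 1) * (2 * w) ≤ i' * (2 * w) := Nat.mul_le_mul_right _ h3
        have h5 : (i + 1) * (2 * w) = i * (2 * w) + 2 * w := by ring
        omega
      · subst h3
        have : v = v' := by omega
        rw [this]
      · have h4 : (i' + 1) * (2 * w) ≤ i * (2 * w) := Nat.mul_le_mul_right _ h3
        have h5 : (i' + 1) * (2 * w) = i' * (2 * w) + 2 * w := by ring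
        omega
  rw [Finset.card_product, Finset.card_range] at hinj
  have h1 : l ^ 4 * (w - h + 1) ≤ J.card * (w - h + 1) := Nat.mul_le_mul_right _ hJcard
  have h2 : w ≤ 2 * (w - h + 1) := by omega
  have h3 : 4 * l ^ 4 * w ≤ 4 * l ^ 4 * (2 * (w - h + 1)) := Nat.mul_le_mul_left _ h2
  have h4 : 4 * l ^ 4 * (2 * (w - h + 1)) = 8 * (l ^ 4 * (w - h + 1)) := by ring
  refine le_trans ?_ (Nat.mul_le_mul_left 8 (h1.trans hinj))
  rw [hG]
  omega

end Pool.Agent.V8H23.Tow
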