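import Pool.Agent.V8H23.Tow.Pair
import Pool.Agent.V8H53.Ind.Moment

/-!
# Second moments, restricted to the times whose reference block is good
-/

set_option autoImplicit false
set_option linter.unusedSectionVars false

open MeasureTheory Filter Topology Set Finset
open scoped ENNReal ComplexConjugate

namespace Pool.Agent.V8H23.Tow

open Pool.Agent.V8H53.Ind

variable (c : ℕ → ℕ)

open Classical in
/-- the indicator function of the times in good blocks -/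
noncomputable def g0 (G : ℕ) (gb : ℕ → Prop) (s : ℕ) : ℂ := if gb (s / G) then 1 else 0

lemma g0_bdd (G : ℕ) (gb : ℕ → Prop) (s : ℕ) : ‖g0 G gb s‖ ≤ 1 := by
  unfold g0; split_ifs <;> simp

/-- the terms, restricted to good reference blocks -/
noncomputable def Psg (G : ℕ) (gb : ℕ → Prop) (a : ℕ → ℕ) (h : ℕ → ℕ → ℂ) (g : ℕ → ℂ) (r i R n : ℕ) (θ : Om) : ℂ :=
  Xv c (g0 G gb) (a r * (n + 1) + i - 2 * G - 1) R θ * Psi c a h g r i R n θ

lemma meas_Psg (G : ℕ) (gb : ℕ → Prop) (a : ℕ → ℕ) (h : ℕ → ℕ → ℂ) (g : ℕ → ℂ) (r i R n : ℕ) :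
    Measurable (Psg c G gb a h g r i R n) :=
  (meas_Xv c _ _ _).mul (meas_Psi c a h g r i R n)

lemma Psg_bdd (G : ℕ) (gb : ℕ → Prop) (a : ℕ → ℕ) (h : ℕ → ℕ → ℂ) (g : ℕ → ℂ) (C : ℝ) (hC1 : 0 ≤ C)
    (hh : ∀ j s, ‖h j s‖ ≤ C) (hg : ∀ s, ‖g s‖ ≤ C) (r i R n : ℕ) (θ : Om) :
    ‖Psg c G gb a h g r i R n θ‖ ≤ C ^ r * (C + C) := by
  unfold Psg
  rw [norm_mul]
  have h1 := Xv_bdd c (g0 G gb) 1 zero_le_one (g0_bdd G gb) (a r * (n + 1) + i - 2 * G - 1) R θ
  have h2 := Psi_bdd c a h g C hC1 hh hg r i R n θ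
  have h3 : 0 ≤ C ^ r * (C + C) := by positivity
  have h4 := norm_nonneg (Psi c a h g r i R n θ)
  nlinarith [norm_nonneg (Xv c (g0 G gb) (a r * (n + 1) + i - 2 * G - 1) R θ)]

/-- in a bad block the indicator vanishes -/
lemma Xv_bad (G : ℕ) (_hG : 0 < G) (gb : ℕ → Prop) (M0 b B : ℕ) (hb : ¬ gb b) (θ : Om) (hE : Ev c G M0 b θ) :
    Xv c (g0 G gb) M0 B θ = 0 := by
  unfold Xv
  apply Finset.sum_eq_zero
  intro s _
  split_ifs with h
  · obtain ⟨h1, h2⟩ := h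
    have h3 : b * G ≤ s := by
      by_contra hcon
      have := cnt_lt c θ (not_le.1 hcon) h1
      have := hE.1
      omega
    have h4 : s < (b + 1) * G := by
      by_contra hcon
      have := cnt_mono c θ (not_lt.1 hcon)
      have := hE.2
      omega
    have h5 : s / G = b := by
      apply Nat.div_eq_of_lt_le
      · exact h3
      · exact h4
    unfold g0
    rw [h5, if_neg hb]
  · rfl

variable (ν : Measure Bool) [IsProbabilityMeasure ν]

/-- the freshness condition for the good blocks -/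
def GBlocks (G Q K : ℕ) (gb : ℕ → Prop) : Prop :=
  ∀ b < Q, gb b → ∃ T : Finset ℕ, #T = K ∧ (∀ t ∈ T, (b + 1) * G ≤ t ∧ t < (b + 2) * G) ∧
      ∀ t ∈ T, ∀ s < (Q + 1) * G, s ≠ t → c s ≠ c t

lemma corrg (hp : 0 < pr ν) (hq : pr ν < 1) (G Q K : ℕ) (hG : 0 < G) (hK : 0 < K) (gb : ℕ → Prop)
    (hB : GBlocks c G Q K gb)
    (a : ℕ → ℕ) (h : ℕ → ℕ → ℂ) (g : ℕ → ℂ) (C : ℝ) (hC1 : 0 ≤ C) (hh : ∀ j s, ‖h j s‖ ≤ C)
    (hg : ∀ s, ‖g s‖ ≤ C) (r i : ℕ) (ha : ∀ j < r, a j + 1 ≤ a r) (har : 1 ≤ a r)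
    (n' n : ℕ) (hn : n' + (2 * G + i + 2) ≤ n) :
    ‖∫ θ, Psg c G gb a h g r i (Q * G) n θ * conj (Psg c G gb a h g r i (Q * G) n' θ) ∂(PP ν)‖ ≤
      (C ^ r * (C + C)) ^ 2 / Real.sqrt (K * (pr ν * (1 - pr ν))) := by
  set M0 : ℕ := a r * (n + 1) + i - 2 * G - 1 with hM0
  have hM1 : max ((a r - 1) * (n + 1)) (a r * (n' + 1) + i + 1) + 2 * G < a r * (n + 1) + i := by
    obtain ⟨e, he⟩ := Nat.exists_eq_add_of_le har
    obtain ⟨d, rfl⟩ := Nat.exists_eq_add_of_le hn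
    have h1 : (a r - 1) * (n' + (2 * G + i + 2) + d + 1) + 2 * G < a r * (n' + (2 * G + i + 2) + d + 1) + i := by
      rw [he]
      have : (1 + e - 1) = e := by omega
      rw [this]
      nlinarith
    have h2 : a r * (n' + 1) + i + 1 + 2 * G < a r * (n' + (2 * G + i + 2) + d + 1) + i := by
      rw [he]
      nlinarith
    omega
  have hML : (a r - 1) * (n + 1) ≤ M0 := by
    have := le_max_left ((a r - 1) * (n + 1)) (a r * (n' + 1) + i + 1)
    omega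
  have hMR : a r * (n' + 1) + i + 1 ≤ M0 := by
    have := le_max_right ((a r - 1) * (n + 1)) (a r * (n' + 1) + i + 1)
    omega
  have hM : M0 + 2 * G < a r * (n + 1) + i := by omega
  have pX : ∀ (u : ℕ → ℂ) (m : ℕ), (∀ s, ‖u s‖ ≤ C) → m ≤ M0 → Past c M0 C (fun R θ => Xv c u m R θ) :=
    fun u m hu hm => past_X c u C hC1 hu hm
  have p1 : Past c M0 (C ^ r) (fun R θ => ∏ j ∈ range r, Xv c (h j) (a j * (n + 1)) R θ) := by
    apply past_prod c hC1 r (fun j R θ => Xv c (h j) (a j * (n + 1)) R θ)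
    intro j hj
    apply pX _ _ (hh j)
    refine le_trans ?_ hML
    apply Nat.mul_le_mul_right
    have := ha j hj
    omega
  have p2 : Past c M0 (C ^ r) (fun R θ => ∏ j ∈ range r, Xv c (h j) (a j * (n' + 1)) R θ) := by
    apply past_prod c hC1 r (fun j R θ => Xv c (h j) (a j * (n' + 1)) R θ)
    intro j hj
    apply pX _ _ (hh j)
    refine le_trans ?_ hML
    apply Nat.mul_le_mul
    · have := ha j hj
      omega
    · omega
  have p3 : Past c M0 (C + C) (fun R θ => Xv c g (a r * (n' + 1) + i) R θ -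
      Xv c g (a r * (n' + 1) + i + 1) R θ) := by
    apply past_sub
    · exact pX _ _ hg (le_trans (by omega) hMR)
    · exact pX _ _ hg hMR
  have p4 : Past c M0 (1 * (C ^ r * (C + C))) (fun R θ => Psg c G gb a h g r i R n' θ) :=
    past_mul c zero_le_one (past_X c (g0 G gb) 1 zero_le_one (g0_bdd G gb)
      (show a r * (n' + 1) + i - 2 * G - 1 ≤ M0 by omega)) (past_mul c (by positivity) p2 p3)
  rw [one_mul] at p4
  have p6 : Past c M0 (1 * C ^ r) (fun R θ => Xv c (g0 G gb) M0 R θ *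
      ∏ j ∈ range r, Xv c (h j) (a j * (n + 1)) R θ) :=
    past_mul c zero_le_one (past_X c (g0 G gb) 1 zero_le_one (g0_bdd G gb) le_rfl) p1
  rw [one_mul] at p6
  have p5 := past_mul c (by positivity) p6 (past_conj c p4)
  have key := pairg c ν hp hq G Q K M0 (a r * (n + 1) + i) hK hM gb hB _ _ (by positivity) p5
    (by
      intro b _ hbad θ hEv
      simp only [Xv_bad c G hG gb M0 b _ hbad θ hEv, zero_mul]) g C hC1 hg
  have e1 : ∀ θ, Psg c G gb a h g r i (Q * G) n θ * conj (Psg c G gb a h g r i (Q * G) n' θ) =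
      (Xv c (g0 G gb) M0 (Q * G) θ * ∏ j ∈ range r, Xv c (h j) (a j * (n + 1)) (Q * G) θ) *
        conj (Psg c G gb a h g r i (Q * G) n' θ) *
        (Xv c g (a r * (n + 1) + i) (Q * G) θ - Xv c g (a r * (n + 1) + i + 1) (Q * G) θ) := by
    intro θ
    conv_lhs => rw [Psg, Psi]
    rw [← hM0]
    ring
  simp_rw [e1]
  refine key.trans ?_
  apply div_le_div_of_nonneg_right _ (Real.sqrt_nonneg _)
  have : 0 ≤ C ^ r := by positivity
  have h2 : C * (C ^ r * (C ^ r * (C + C))) ≤ (C ^ r * (C + C)) ^ 2 := by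
    have h3 : (C ^ r * (C + C)) ^ 2 = (C + C) * (C ^ r * (C ^ r * (C + C))) := by ring
    rw [h3]
    apply mul_le_mul_of_nonneg_right _ (by positivity)
    linarith
  exact h2

lemma momentg (hp : 0 < pr ν) (hq : pr ν < 1) (G Q K : ℕ) (hG : 0 < G) (hK : 0 < K) (gb : ℕ → Prop)
    (hB : GBlocks c G Q K gb)
    (a : ℕ → ℕ) (h : ℕ → ℕ → ℂ) (g : ℕ → ℂ) (C : ℝ) (hC1 : 0 ≤ C) (hh : ∀ j s, ‖h j s‖ ≤ C)
    (hg : ∀ s, ‖g s‖ ≤ C) (r i : ℕ) (ha : ∀ j < r, a j + 1 ≤ a r) (har : 1 ≤ a r) (N : ℕ) :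
    ∫ θ, ‖∑ n ∈ range N, Psg c G gb a h g r i (Q * G) n θ‖ ^ 2 ∂(PP ν) ≤
      (C ^ r * (C + C)) ^ 2 * (N * (2 * (2 * G + i + 2) + 1) + N ^ 2 / Real.sqrt (K * (pr ν * (1 - pr ν)))) := by
  set D : ℝ := C ^ r * (C + C) with hD
  have hD0 : 0 ≤ D := by positivity
  set W := 2 * G + i + 2 with hW
  set Ψ : ℕ → Om → ℂ := fun n θ => Psg c G gb a h g r i (Q * G) n θ with hΨ
  have mΨ : ∀ n, Measurable (Ψ n) := fun n => meas_Psg c G gb a h g r i _ n
  have nΨ : ∀ n θ, ‖Ψ n θ‖ ≤ D := fun n θ => Psg_bdd c G gb a h g C hC1 hh hg r i _ n θ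
  have hint : ∀ n n', Integrable (fun θ => Ψ n θ * conj (Ψ n' θ)) (PP ν) := by
    intro n n'
    refine Integrable.of_bound ((mΨ n).mul (Complex.continuous_conj.measurable.comp (mΨ n'))).aestronglyMeasurable (D * D) ?_
    filter_upwards with θ
    rw [norm_mul, Complex.norm_conj]
    exact mul_le_mul (nΨ n θ) (nΨ n' θ) (norm_nonneg _) hD0
  have htriv : ∀ n n', ‖∫ θ, Ψ n θ * conj (Ψ n' θ) ∂(PP ν)‖ ≤ D ^ 2 := by
    intro n n'
    have := norm_integral_le_of_norm_le_const (μ := PP ν) (C := D ^ 2)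
      (f := fun θ => Ψ n θ * conj (Ψ n' θ)) (Eventually.of_forall fun θ => by
        rw [norm_mul, Complex.norm_conj, sq]
        exact mul_le_mul (nΨ n θ) (nΨ n' θ) (norm_nonneg _) hD0)
    simpa using this
  set κ : ℝ := D ^ 2 / Real.sqrt (K * (pr ν * (1 - pr ν))) with hκ
  have hκ0 : 0 ≤ κ := by positivity
  have hfar : ∀ n n', (n' + W ≤ n ∨ n + W ≤ n') → ‖∫ θ, Ψ n θ * conj (Ψ n' θ) ∂(PP ν)‖ ≤ κ := by
    intro n n' hnn
    rcases hnn with h1 | h1
    · exact corrg c ν hp hq G Q K hG hK gb hB a h g C hC1 hh hg r i ha har n' n h1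
    · have h2 := corrg c ν hp hq G Q K hG hK gb hB a h g C hC1 hh hg r i ha har n n' h1
      have e1 : ∫ θ, Ψ n θ * conj (Ψ n' θ) ∂(PP ν) = conj (∫ θ, Ψ n' θ * conj (Ψ n θ) ∂(PP ν)) := by
        rw [← integral_conj]
        congr 1; ext θ
        simp [mul_comm]
      rw [e1, Complex.norm_conj]
      exact h2
  have e1 : ∀ θ, ((‖∑ n ∈ range N, Ψ n θ‖ ^ 2 : ℝ) : ℂ) = ∑ n ∈ range N, ∑ n' ∈ range N, Ψ n θ * conj (Ψ n' θ) := by
    intro θ
    have : ((‖∑ n ∈ range N, Ψ n θ‖ ^ 2 : ℝ) : ℂ) = (∑ n ∈ range N, Ψ n θ) * conj (∑ n ∈ range N, Ψ n θ) := by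
      rw [Complex.mul_conj, Complex.normSq_eq_norm_sq]
    rw [this, map_sum, Finset.sum_mul_sum]
  have e2 : ((∫ θ, ‖∑ n ∈ range N, Ψ n θ‖ ^ 2 ∂(PP ν) : ℝ) : ℂ) =
      ∑ n ∈ range N, ∑ n' ∈ range N, ∫ θ, Ψ n θ * conj (Ψ n' θ) ∂(PP ν) := by
    rw [← integral_complex_ofReal]
    simp_rw [e1]
    rw [integral_finsetSum _ (fun n _ => integrable_finsetSum _ (fun n' _ => hint n n'))]
    simp_rw [integral_finsetSum _ (fun n' _ => hint _ n')]
  have e3 : ∫ θ, ‖∑ n ∈ range N, Ψ n θ‖ ^ 2 ∂(PP ν) ≤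
      ∑ n ∈ range N, ∑ n' ∈ range N, ‖∫ θ, Ψ n θ * conj (Ψ n' θ) ∂(PP ν)‖ := by
    have h1 : ‖((∫ θ, ‖∑ n ∈ range N, Ψ n θ‖ ^ 2 ∂(PP ν) : ℝ) : ℂ)‖ ≤
      ∑ n ∈ range N, ∑ n' ∈ range N, ‖∫ θ, Ψ n θ * conj (Ψ n' θ) ∂(PP ν)‖ := by
      rw [e2]
      refine (norm_sum_le _ _).trans (Finset.sum_le_sum fun n _ => norm_sum_le _ _)
    rw [Complex.norm_real, Real.norm_eq_abs] at h1
    exact (le_abs_self _).trans h1
  refine e3.trans ?_
  have hrow : ∀ n ∈ range N, ∑ n' ∈ range N, ‖∫ θ, Ψ n θ * conj (Ψ n' θ) ∂(PP ν)‖ ≤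
      D ^ 2 * (2 * W + 1) + N * κ := by
    intro n _
    rw [← Finset.sum_filter_add_sum_filter_not (range N) (fun n' => n' ∈ Finset.Icc (n - W) (n + W))]
    apply add_le_add
    · refine (Finset.sum_le_sum fun n' _ => htriv n n').trans ?_
      rw [Finset.sum_const, nsmul_eq_mul, mul_comm]
      apply mul_le_mul_of_nonneg_left _ (by positivity)
      have h2 : #{n' ∈ range N | n' ∈ Finset.Icc (n - W) (n + W)} ≤ 2 * W + 1 := by
        refine (Finset.card_le_card (t := Finset.Icc (n - W) (n + W)) ?_).trans ?_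
        · intro x hx
          rw [Finset.mem_filter] at hx
          exact hx.2
        · rw [Nat.card_Icc]; omega
      exact_mod_cast h2
    · have h3 : ∀ n' ∈ (range N).filter (fun n' => ¬ n' ∈ Finset.Icc (n - W) (n + W)),
          ‖∫ θ, Ψ n θ * conj (Ψ n' θ) ∂(PP ν)‖ ≤ κ := by
        intro n' hn'
        rw [Finset.mem_filter, Finset.mem_Icc, not_and_or] at hn'
        apply hfar
        rcases hn'.2 with h4 | h4
        · left; omega
        · right; omega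
      refine (Finset.sum_le_sum h3).trans ?_
      rw [Finset.sum_const, nsmul_eq_mul]
      apply mul_le_mul_of_nonneg_right _ hκ0
      have := Finset.card_filter_le (range N) (fun n' => ¬ n' ∈ Finset.Icc (n - W) (n + W))
      rw [Finset.card_range] at this
      exact_mod_cast this
  refine (Finset.sum_le_sum hrow).trans ?_
  have hWr : (W : ℝ) = 2 * G + i + 2 := by rw [hW]; push_cast; ring
  rw [Finset.sum_const, Finset.card_range, nsmul_eq_mul, hκ, hWr]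
  apply le_of_eq
  ring


end Pool.Agent.V8H23.Tow
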