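import Pool.Agent.V8H53.Ind.Pair

/-!
# The pair estimate when only some of the blocks contain many fresh times
-/

set_option autoImplicit false
set_option linter.unusedSectionVars false

open MeasureTheory Filter Topology Set Finset
open scoped ENNReal ComplexConjugate

namespace Pool.Agent.V8H23.Tow

open Pool.Agent.V8H53.Ind

variable (c : ℕ → ℕ)
variable (ν : Measure Bool) [IsProbabilityMeasure ν]

/-- the pair estimate -/
theorem pairg (hp : 0 < pr ν) (hq : pr ν < 1) (G Q K M0 M : ℕ) (hK : 0 < K) (hM : M0 + 2 * G < M)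
    (gb : ℕ → Prop) (hfr : ∀ b < Q, gb b → ∃ T : Finset ℕ, #T = K ∧ (∀ t ∈ T, (b + 1) * G ≤ t ∧ t < (b + 2) * G) ∧
      ∀ t ∈ T, ∀ s < (Q + 1) * G, s ≠ t → c s ≠ c t)
    (V : ℕ → Om → ℂ) (CV : ℝ) (hCV : 0 ≤ CV) (hV : Past c M0 CV V)
    (hVb : ∀ b < Q, ¬ gb b → ∀ θ, Ev c G M0 b θ → V ((b + 1) * G) θ = 0) (h : ℕ → ℂ) (C : ℝ) (hC0 : 0 ≤ C)
    (hC : ∀ s, ‖h s‖ ≤ C) :
    ‖∫ θ, V (Q * G) θ * (Xv c h M (Q * G) θ - Xv c h (M + 1) (Q * G) θ) ∂(PP ν)‖ ≤
      C * CV / Real.sqrt (K * (pr ν * (1 - pr ν))) := by
  classical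
  set R := Q * G with hR
  choose! T hT1 hT2 hT3 using hfr
  set J := (range Q).filter gb with hJ
  have hJm : ∀ b, b ∈ J ↔ b < Q ∧ gb b := fun b => by rw [hJ, Finset.mem_filter, Finset.mem_range]
  have hTR : ∀ b < Q, gb b → ∀ t ∈ T b, ∀ s < R, s ≠ t → c s ≠ c t := by
    intro b hb hg t ht s hs hst
    apply hT3 b hb hg t ht s _ hst
    have : Q * G ≤ (Q + 1) * G := Nat.mul_le_mul_right G (by omega)
    omega
  have hTinj : ∀ b < Q, gb b → Set.InjOn c (T b) := by
    intro b hb hg t ht s hs hst
    by_contra hne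
    refine hT3 b hb hg s hs t ?_ hne hst
    have h1 := (hT2 b hb hg t ht).2
    have h2 : (b + 2) * G ≤ (Q + 1) * G := Nat.mul_le_mul_right G (by omega)
    omega
  set E : ℕ → Om → ℝ := fun b θ => if Ev c G M0 b θ then 1 else 0 with hE
  have mE : ∀ b, Measurable (E b) := fun b => Measurable.ite (meas_Ev c G M0 b) measurable_const measurable_const
  -- the decomposition
  have hdec : ∀ θ, V R θ * (Xv c h M R θ - Xv c h (M + 1) R θ) =
      ∑ b ∈ J, ((E b θ : ℂ) * V ((b + 1) * G) θ) *
        (Hf c (T b) h M ((b + 2) * G) R (cE ((T b).image c) θ + 1) θ -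
          Hf c (T b) h M ((b + 2) * G) R (cE ((T b).image c) θ) θ) := by
    intro θ
    by_cases hcase : M0 < cnt c θ R
    · obtain ⟨b, hb, hEv⟩ := Ev_exists c G M0 θ Q hcase
      have hBR : (b + 1) * G ≤ R := Nat.mul_le_mul_right G hb
      by_cases hg : gb b
      swap
      · rw [hV.stab _ R θ hBR hEv.2, hVb b hb hg θ hEv, zero_mul]
        symm
        apply Finset.sum_eq_zero
        intro b' hb'
        have hne : b' ≠ b := fun hh => hg (hh ▸ ((hJm b').1 hb').2)
        have : E b' θ = 0 := if_neg (fun h' => hne (Ev_unique c G M0 θ h' hEv))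
        rw [this]; simp
      rw [Finset.sum_eq_single b]
      · have e1 : E b θ = 1 := if_pos hEv
        rw [e1, Complex.ofReal_one, one_mul, hV.stab _ R θ hBR hEv.2]
        congr 1
        have hcomm : (b + 2) * G = b * G + 2 * G := by ring
        -- early times do not contribute
        have hearly : ∀ M', M ≤ M' → Xv c h M' R θ = ∑ s ∈ Finset.Ico ((b + 2) * G) R,
            if θ (c s) = true ∧ cnt c θ s = M' then h s else 0 := by
          intro M' hM'
          unfold Xv
          have hz : ∀ s < (b + 2) * G, ¬ (θ (c s) = true ∧ cnt c θ s = M') := by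
            rintro s hs ⟨_, h2⟩
            have h3 : cnt c θ s ≤ cnt c θ (b * G + 2 * G) := cnt_mono c θ (by omega)
            have h4 := cnt_add_le c θ (b * G) (2 * G)
            have h5 := hEv.1
            omega
          by_cases hle : (b + 2) * G ≤ R
          · rw [← Finset.sum_range_add_sum_Ico _ hle]
            rw [Finset.sum_eq_zero, zero_add]
            intro s hs
            rw [Finset.mem_range] at hs
            rw [if_neg (hz s hs)]
          · rw [Finset.Ico_eq_empty (by omega), Finset.sum_empty]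
            apply Finset.sum_eq_zero
            intro s hs
            rw [Finset.mem_range] at hs
            rw [if_neg (hz s (by omega))]
        rw [hearly M le_rfl, hearly (M + 1) (by omega)]
        have hsplit : ∀ s ∈ Finset.Ico ((b + 2) * G) R, cnt c θ s = oc c (T b) θ s + cE ((T b).image c) θ := by
          intro s hs
          rw [Finset.mem_Ico] at hs
          apply cnt_split c (T b) θ _ (hTinj b hb hg)
          intro t ht
          rw [Finset.mem_range]
          have := (hT2 b hb hg t ht).2
          omega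
        congr 1
        · unfold Hf
          refine Finset.sum_congr rfl fun s hs => ?_
          rw [hsplit s hs]
          congr 1
          rw [eq_iff_iff]
          constructor <;> rintro ⟨h1, h2⟩ <;> exact ⟨h1, by omega⟩
        · unfold Hf
          refine Finset.sum_congr rfl fun s hs => ?_
          rw [hsplit s hs]
      · intro b' _ hne
        have : E b' θ = 0 := if_neg (fun h' => hne (Ev_unique c G M0 θ h' hEv))
        rw [this]; simp
      · intro h1; exact absurd ((hJm b).2 ⟨hb, hg⟩) h1
    · have hz : ∀ M', M ≤ M' → Xv c h M' R θ = 0 := by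
        intro M' hM'
        unfold Xv
        apply Finset.sum_eq_zero
        intro s hs
        rw [Finset.mem_range] at hs
        rw [if_neg]
        rintro ⟨_, h2⟩
        have := cnt_mono c θ hs.le
        omega
      rw [hz M le_rfl, hz (M + 1) (by omega), sub_self, mul_zero]
      symm
      apply Finset.sum_eq_zero
      intro b hb
      rw [hJm] at hb
      replace hb := hb.1
      have : E b θ = 0 := by
        apply if_neg
        intro h'
        have h1 : (b + 1) * G ≤ R := Nat.mul_le_mul_right G hb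
        have := cnt_mono c θ h1
        unfold Ev at h'
        omega
      rw [this]; simp
  simp_rw [hdec]
  have hC2 : 0 ≤ C / Real.sqrt (K * (pr ν * (1 - pr ν))) := by positivity
  -- measurability and bounds
  have mV : ∀ b, Measurable (fun θ => (E b θ : ℂ) * V ((b + 1) * G) θ) := fun b =>
    (Complex.measurable_ofReal.comp (mE b)).mul (hV.meas _)
  have nV : ∀ b θ, ‖(E b θ : ℂ) * V ((b + 1) * G) θ‖ ≤ CV * E b θ := by
    intro b θ
    rw [norm_mul, Complex.norm_real, Real.norm_eq_abs]
    have h1 := hV.bdd ((b + 1) * G) θ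
    have h2 : |E b θ| = E b θ := by
      rw [hE]; simp only; split_ifs <;> simp
    rw [h2]
    have h3 : 0 ≤ E b θ := by rw [hE]; simp only; split_ifs <;> simp
    nlinarith
  have nV' : ∀ b θ, ‖(E b θ : ℂ) * V ((b + 1) * G) θ‖ ≤ CV := by
    intro b θ
    refine (nV b θ).trans ?_
    have h3 : E b θ ≤ 1 := by rw [hE]; simp only; split_ifs <;> simp
    nlinarith
  have hHm : ∀ b e, Measurable (Hf c (T b) h M ((b + 2) * G) R e) := fun b e => meas_Hf c _ h M _ R e
  have hHb : ∀ b < Q, gb b → ∀ e θ, ‖Hf c (T b) h M ((b + 2) * G) R e θ‖ ≤ C := fun b hb hg e θ =>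
    Hf_bdd c (T b) h C hC0 hC M _ R e (fun t ht => (hT2 b hb hg t ht).2) θ
  have mterm : ∀ b, Measurable (fun θ => ((E b θ : ℂ) * V ((b + 1) * G) θ) *
        (Hf c (T b) h M ((b + 2) * G) R (cE ((T b).image c) θ + 1) θ -
          Hf c (T b) h M ((b + 2) * G) R (cE ((T b).image c) θ) θ)) := fun b =>
    (mV b).mul ((meas_idx (hHm b) ((meas_cE _).add_const 1)).sub (meas_idx (hHm b) (meas_cE _)))
  have hint : ∀ b ∈ J, Integrable (fun θ => ((E b θ : ℂ) * V ((b + 1) * G) θ) *
        (Hf c (T b) h M ((b + 2) * G) R (cE ((T b).image c) θ + 1) θ -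
          Hf c (T b) h M ((b + 2) * G) R (cE ((T b).image c) θ) θ)) (PP ν) := by
    intro b hb
    rw [hJm] at hb
    obtain ⟨hb, hg⟩ := hb
    refine Integrable.of_bound (mterm b).aestronglyMeasurable (CV * (C + C)) ?_
    filter_upwards with θ
    rw [norm_mul]
    refine mul_le_mul (nV' b θ) ?_ (norm_nonneg _) hCV
    exact (norm_sub_le _ _).trans (add_le_add (hHb b hb hg _ _) (hHb b hb hg _ _))
  rw [integral_finsetSum _ hint]
  have iE : ∀ b, Integrable (E b) (PP ν) := fun b =>
    Integrable.of_bound (mE b).aestronglyMeasurable 1 (Eventually.of_forall fun θ => by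
      rw [hE]; simp only; split_ifs <;> simp)
  have hone : ∀ b ∈ J, ‖∫ θ, ((E b θ : ℂ) * V ((b + 1) * G) θ) *
        (Hf c (T b) h M ((b + 2) * G) R (cE ((T b).image c) θ + 1) θ -
          Hf c (T b) h M ((b + 2) * G) R (cE ((T b).image c) θ) θ) ∂(PP ν)‖ ≤
        C / Real.sqrt (K * (pr ν * (1 - pr ν))) * (CV * ∫ θ, E b θ ∂(PP ν)) := by
    intro b hb
    rw [hJm] at hb
    obtain ⟨hb, hg⟩ := hb
    have hcard : #((T b).image c) = K := by
      rw [Finset.card_image_of_injOn (hTinj b hb hg), hT1 b hb hg]
    have hVinv : Inv ((T b).image c) (fun θ => (E b θ : ℂ) * V ((b + 1) * G) θ) := by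
      intro i hi θ bb
      obtain ⟨t, ht, rfl⟩ := Finset.mem_image.1 hi
      have hlow : ∀ s < (b + 1) * G, (Function.update θ (c t) bb) (c s) = θ (c s) := by
        intro s hs
        rw [Function.update_of_ne]
        have h1 := (hT2 b hb hg t ht).1
        have h2 : (b + 1) * G ≤ R := Nat.mul_le_mul_right G hb
        exact hTR b hb hg t ht s (by omega) (by omega)
      have h1 : V ((b + 1) * G) (Function.update θ (c t) bb) = V ((b + 1) * G) θ :=
        hV.dep _ _ _ hlow
      have h2 : E b (Function.update θ (c t) bb) = E b θ := by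
        rw [hE]
        simp only
        have h3 : Ev c G M0 b (Function.update θ (c t) bb) ↔ Ev c G M0 b θ := by
          unfold Ev
          have hbG : b * G ≤ (b + 1) * G := Nat.mul_le_mul_right G (by omega)
          rw [cnt_congr c hbG hlow, cnt_congr c le_rfl hlow]
        simp only [h3]
      simp only [h1, h2]
    have hs := smooth ν hp hq ((T b).image c) (by rw [hcard]; exact hK)
      (fun θ => (E b θ : ℂ) * V ((b + 1) * G) θ) (mV b) CV (nV' b) hVinv
      (Hf c (T b) h M ((b + 2) * G) R) (hHm b) C (hHb b hb hg)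
      (fun e => Hf_inv c (T b) h M _ R e (hTR b hb hg) (fun t ht => (hT2 b hb hg t ht).2))
    rw [hcard] at hs
    refine hs.trans ?_
    refine mul_le_mul_of_nonneg_left ?_ hC2
    rw [← integral_const_mul]
    apply integral_mono_of_nonneg (Eventually.of_forall fun θ => norm_nonneg _) ((iE b).const_mul CV)
      (Eventually.of_forall (nV b))
  refine (norm_sum_le_of_le _ hone).trans ?_
  rw [← Finset.mul_sum, ← Finset.mul_sum, ← integral_finsetSum _ (fun b _ => iE b)]
  have hle : ∫ θ, ∑ b ∈ J, E b θ ∂(PP ν) ≤ 1 := by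
    calc ∫ θ, ∑ b ∈ J, E b θ ∂(PP ν) ≤ ∫ θ, (1:ℝ) ∂(PP ν) := by
          apply integral_mono (integrable_finsetSum _ (fun b _ => iE b)) (integrable_const _)
          intro θ
          simp only
          by_cases hex : ∃ b ∈ J, Ev c G M0 b θ
          · obtain ⟨b, hb, hEv⟩ := hex
            rw [Finset.sum_eq_single b]
            · rw [hE]; simp only; rw [if_pos hEv]
            · intro b' _ hne
              exact if_neg (fun h' => hne (Ev_unique c G M0 θ h' hEv))
            · intro h1; exact absurd hb h1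
          · push Not at hex
            rw [Finset.sum_eq_zero]
            · exact zero_le_one
            · intro b hb
              exact if_neg (hex b hb)
      _ = 1 := by simp
  calc C / Real.sqrt (K * (pr ν * (1 - pr ν))) * (CV * ∫ θ, ∑ b ∈ J, E b θ ∂(PP ν))
      ≤ C / Real.sqrt (K * (pr ν * (1 - pr ν))) * (CV * 1) := by
        apply mul_le_mul_of_nonneg_left _ hC2
        exact mul_le_mul_of_nonneg_left hle hCV
    _ = C * CV / Real.sqrt (K * (pr ν * (1 - pr ν))) := by ring

end Pool.Agent.V8H23.Tow
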