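import Pool.Agent.V8H23.Tow.Moment
import Pool.Agent.V8H53.Ind.Fub

/-!
# Scales, good blocks, almost sure convergence
-/

set_option autoImplicit false
set_option linter.unusedSectionVars false

open MeasureTheory Filter Topology Set Finset
open scoped ENNReal ComplexConjugate

namespace Pool.Agent.V8H23.Tow

open Pool.Agent.V8H53.Ind

/-- the length of the windows at scale `l` -/
def wl (l : ℕ) : ℕ := 2 * 2 ^ Nat.log 2 l + 1

/-- the length of the blocks at scale `l` -/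
def G2 (l : ℕ) : ℕ := 4 * l ^ 4 * wl l

/-- the range at scale `l` -/
def R2 (l : ℕ) : ℕ := l ^ 5 * G2 l

variable (c : ℕ → ℕ)

/-- the block after the block `b` contains many fresh times -/
def gbl (l b : ℕ) : Prop :=
  ∃ T : Finset ℕ, #T = l ^ 4 ∧ (∀ t ∈ T, (b + 1) * G2 l ≤ t ∧ t < (b + 2) * G2 l) ∧
      ∀ t ∈ T, ∀ s < (l ^ 5 + 1) * G2 l, s ≠ t → c s ≠ c t

lemma gblocks (l : ℕ) : GBlocks c (G2 l) (l ^ 5) (l ^ 4) (gbl c l) := fun _ _ h => h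

lemma wl_le (l : ℕ) (hl : 1 ≤ l) : wl l ≤ 3 * l := by
  have hk1 : 2 ^ Nat.log 2 l ≤ l := Nat.pow_log_le_self 2 (by omega)
  unfold wl; omega

lemma wl_ge (l : ℕ) : l ≤ wl l := by
  have h1 : l < 2 ^ (Nat.log 2 l + 1) := Nat.lt_pow_succ_log_self (by norm_num) l
  rw [pow_succ] at h1
  unfold wl; omega

lemma G2_le (l : ℕ) (hl : 1 ≤ l) : G2 l ≤ 12 * l ^ 5 := by
  unfold G2
  calc 4 * l ^ 4 * wl l ≤ 4 * l ^ 4 * (3 * l) := Nat.mul_le_mul_left _ (wl_le l hl)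
    _ = 12 * l ^ 5 := by ring

lemma G2_ge (l : ℕ) : 4 * l ^ 5 ≤ G2 l := by
  unfold G2
  calc 4 * l ^ 5 = 4 * l ^ 4 * l := by ring
    _ ≤ 4 * l ^ 4 * wl l := Nat.mul_le_mul_left _ (wl_ge l)

lemma R2_ge (l : ℕ) : l ^ 10 ≤ R2 l := by
  unfold R2
  calc l ^ 10 = l ^ 5 * l ^ 5 := by ring
    _ ≤ l ^ 5 * G2 l := Nat.mul_le_mul_left _ (le_trans (by omega) (G2_ge l))

variable (ν : Measure Bool) [IsProbabilityMeasure ν]

/-- almost sure convergence along eighth powers -/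
theorem conv_powg (hp : 0 < pr ν) (hq : pr ν < 1)
    (a : ℕ → ℕ) (h : ℕ → ℕ → ℂ) (g : ℕ → ℂ) (C : ℝ) (hC1 : 0 ≤ C) (hh : ∀ j s, ‖h j s‖ ≤ C)
    (hg : ∀ s, ‖g s‖ ≤ C) (r i : ℕ) (ha : ∀ j < r, a j + 1 ≤ a r) (har : 1 ≤ a r) :
    ∀ᵐ θ ∂(PP ν), Tendsto (fun l : ℕ => (1 / ((l ^ 8 : ℕ) : ℂ)) *
      ∑ n ∈ range (l ^ 8), Psg c (G2 l) (gbl c l) a h g r i (R2 l) n θ) atTop (𝓝 0) := by
  set D : ℝ := C ^ r * (C + C) with hD
  have hD0 : 0 ≤ D := by positivity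
  have hpq : 0 < pr ν * (1 - pr ν) := mul_pos hp (by linarith)
  set ρ := Real.sqrt (pr ν * (1 - pr ν)) with hρ
  have hρ0 : 0 < ρ := Real.sqrt_pos.2 hpq
  refine ae_tendsto (PP ν) _ ?_ D ?_ (D ^ 2 * (2 * (24 + i + 2) + 1 + 1 / ρ)) ?_
  · intro l
    exact (Finset.measurable_fun_sum _ fun n _ => meas_Psg c _ _ a h g r i _ n).const_mul _
  · intro l θ
    rw [norm_mul]
    rcases Nat.eq_zero_or_pos l with h0 | h0
    · subst h0; simp [hD0]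
    · have hl : (0:ℝ) < ((l ^ 8 : ℕ) : ℝ) := by positivity
      have h1 : ‖∑ n ∈ range (l ^ 8), Psg c (G2 l) (gbl c l) a h g r i (R2 l) n θ‖ ≤ ((l ^ 8 : ℕ) : ℝ) * D := by
        refine (norm_sum_le_of_le _ fun n _ => Psg_bdd c _ _ a h g C hC1 hh hg r i _ n θ).trans ?_
        rw [Finset.sum_const, Finset.card_range, nsmul_eq_mul]
      rw [norm_div, norm_one, Complex.norm_natCast, one_div, ← div_eq_inv_mul, div_le_iff₀ hl, mul_comm]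
      exact h1
  · filter_upwards [eventually_ge_atTop 64] with l hl
    have hl1 : (1:ℝ) ≤ l := by
      have : 1 ≤ l := by omega
      exact_mod_cast this
    have hl0 : (0:ℝ) < l := by linarith
    have hG0 : 0 < G2 l := lt_of_lt_of_le (by positivity) (G2_ge l)
    have hm := momentg c ν hp hq (G2 l) (l ^ 5) (l ^ 4) hG0 (by positivity) (gbl c l) (gblocks c l)
      a h g C hC1 hh hg r i ha har (l ^ 8)
    have e1 : ∀ θ, ‖(1 / ((l ^ 8 : ℕ) : ℂ)) * ∑ n ∈ range (l ^ 8), Psg c (G2 l) (gbl c l) a h g r i (R2 l) n θ‖ ^ 2 =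
        (1 / (l : ℝ) ^ 16) * ‖∑ n ∈ range (l ^ 8), Psg c (G2 l) (gbl c l) a h g r i (l ^ 5 * G2 l) n θ‖ ^ 2 := by
      intro θ
      rw [norm_mul, mul_pow, norm_div, norm_one, Complex.norm_natCast]
      unfold R2
      congr 1
      push_cast
      rw [div_pow, one_pow]
      congr 1
      ring
    simp_rw [e1]
    rw [integral_const_mul]
    have hG : ((G2 l : ℕ) : ℝ) ≤ 12 * l ^ 5 := by
      have := G2_le l (by omega)
      exact_mod_cast this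
    have hsq : Real.sqrt (((l ^ 4 : ℕ) : ℝ) * (pr ν * (1 - pr ν))) = l ^ 2 * ρ := by
      rw [Real.sqrt_mul (by positivity)]
      congr 1
      push_cast
      rw [show (l : ℝ) ^ 4 = (l ^ 2) ^ 2 by ring, Real.sqrt_sq (by positivity)]
    rw [hsq] at hm
    calc (1 / (l : ℝ) ^ 16) * ∫ θ, ‖∑ n ∈ range (l ^ 8), Psg c (G2 l) (gbl c l) a h g r i (l ^ 5 * G2 l) n θ‖ ^ 2 ∂(PP ν)
        ≤ (1 / (l : ℝ) ^ 16) * (D ^ 2 * (((l ^ 8 : ℕ) : ℝ) * (2 * (2 * (G2 l : ℝ) + i + 2) + 1) +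
            ((l ^ 8 : ℕ) : ℝ) ^ 2 / (l ^ 2 * ρ))) := by
          apply mul_le_mul_of_nonneg_left hm (by positivity)
      _ ≤ (1 / (l : ℝ) ^ 16) * (D ^ 2 * ((l : ℝ) ^ 8 * (2 * (2 * (12 * (l : ℝ) ^ 5) + i + 2) + 1) +
            ((l : ℝ) ^ 8) ^ 2 / (l ^ 2 * ρ))) := by
          push_cast
          gcongr
      _ ≤ (1 / (l : ℝ) ^ 16) * (D ^ 2 * ((l : ℝ) ^ 8 * ((2 * (24 + i + 2) + 1) * (l : ℝ) ^ 6) +
            ((l : ℝ) ^ 8) ^ 2 / (l ^ 2 * ρ))) := by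
          have h1 : 2 * (2 * (12 * (l : ℝ) ^ 5) + i + 2) + 1 ≤ (2 * (24 + i + 2) + 1) * (l : ℝ) ^ 6 := by
            have h2 : (1:ℝ) ≤ (l : ℝ) ^ 5 := one_le_pow₀ hl1
            have h3 : (l : ℝ) ^ 5 ≤ (l : ℝ) ^ 6 := pow_le_pow_right₀ hl1 (by norm_num)
            have h4 : (0:ℝ) ≤ i := Nat.cast_nonneg i
            nlinarith
          gcongr
      _ = D ^ 2 * (2 * (24 + i + 2) + 1 + 1 / ρ) * (1 / (l : ℝ) ^ 2) := by
          field_simp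

end Pool.Agent.V8H23.Tow
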